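import Mathlib
import Pool.Agent.N830.HC.Quad
import Pool.Agent.R937.TZ.Sys

/-!
# Classes of degree four on abelian varieties over finite fields

The other definitions which are used: abelian varieties `RedAV p ν` over finite fields of
characteristic `p` (reductions of abelian varieties of CM type), `SamePlace`, `IsFrobenius`, the Tate
module `TM`, Tate classes `IsTateClass` and homomorphisms `IsFrobHom` (`Pool.Agent.W495.TA.Defs`);
systems of classes `TSys` and cohomology classes `CF` (`Pool.Agent.R937.TZ.Sys`); CM types `CMPair`,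
products `CMAV`, the product `threeB B L Φ _` of the abelian varieties of CM types `(L, Φ 0)`,
`(L, Φ 1)`, `(L, Φ 2)` and of `B`, and its Weil forms `IsWeilForm` (`Pool.Agent.W547.KB.Defs`);
`Quad` (`Pool.Agent.N830.HC.Quad`).
-/

namespace Pool.Agent.N830.FT

open NumberField Module Pool.Agent.W495.TA Pool.Agent.R937.TZ Pool.Agent.N830.HC
open Pool.Agent.W547.KB (CMPair CMAV threeB IsWeilForm)
open scoped TensorProduct

noncomputable section

/-- A CM field `L`, Galois over `ℚ`, with an embedding `ι` of the field of `B` and two complex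
embeddings `j`, `j'` which are not complex conjugate to each other, such that the CM type of `B`
contains the complex conjugate of `j ∘ ι`. -/
structure Frame (B : CMPair) where
  /-- the field -/
  L : Type
  [field : Field L]
  [numberField : NumberField L]
  [cm : IsCMField L]
  [gal : IsGalois ℚ L]
  /-- the embedding of the field of `B` -/
  ι : B.E →+* L
  /-- the first complex embedding -/
  j : L →+* ℂ
  /-- the second complex embedding -/
  j' : L →+* ℂ
  ne : j' ≠ ComplexEmbedding.conjugate j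
  mem : (ComplexEmbedding.conjugate j).comp ι ∈ B.Φ

attribute [instance] Frame.field Frame.numberField Frame.cm Frame.gal

variable {B : CMPair} {F : Frame B}

/-- Three CM types `Φ 0`, `Φ 1`, `Φ 2` of `L` such that `Φ 0 ∩ Φ 1 = {j}`, the CM type `Φ 2` and the
CM type induced from `B` by `ι` have exactly the complex conjugate of `j` in common, `j' ∈ Φ 0`, and
neither `Φ 0` nor `Φ 1` is the complement of `Φ 2` (see `Quad`). -/
structure Frame.Datum (F : Frame B) where
  /-- the CM types -/
  Φ : Fin 3 → Set (F.L →+* ℂ)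
  quad : Quad B F.j F.j' F.ι Φ

/-- The product `A₀ × A₁ × A₂ × B` of the abelian varieties of CM types `(L, Φ 0)`, `(L, Φ 1)`,
`(L, Φ 2)` and of `B`. -/
abbrev Frame.Datum.X (d : F.Datum) : CMAV := threeB B F.L d.Φ d.quad.type

/-- The number of the elements of the CM type `Ψ` which define the same `p`-adic place as `φ`. Divided
by the local degree this is the slope, at this place, of the reduction of the abelian variety of CM
type `Ψ`. -/
def slope {L : Type} [Field L] (p : ℕ) [Fact p.Prime] (ν : PadicAlgCl p ≃+* ℂ)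
    (Ψ : Set (L →+* ℂ)) (φ : L →+* ℂ) : ℕ :=
  Nat.card {φ' : L →+* ℂ // SamePlace p ν φ φ' ∧ φ' ∈ Ψ}

/-- The slopes of the reductions of the three abelian varieties `A₀`, `A₁`, `A₂`. -/
def slopes (p : ℕ) [Fact p.Prime] (ν : PadicAlgCl p ≃+* ℂ) (d : F.Datum) :
    Fin 3 → (F.L →+* ℂ) → ℕ := fun k => slope p ν (d.Φ k)

/-- The reduction of neither `A₀` nor `A₁` has the slopes of the reduction of the dual of `A₂` (of the
abelian variety with the complementary CM type). -/
def Essential (p : ℕ) [Fact p.Prime] (ν : PadicAlgCl p ≃+* ℂ) (d : F.Datum) : Prop :=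
  slope p ν (d.Φ 0) ≠ slope p ν (d.Φ 2)ᶜ ∧ slope p ν (d.Φ 1) ≠ slope p ν (d.Φ 2)ᶜ

/-- The slopes of the essential data. -/
def slopeTypes (p : ℕ) [Fact p.Prime] (ν : PadicAlgCl p ≃+* ℂ) (F : Frame B) :
    Set (Fin 3 → (F.L →+* ℂ) → ℕ) := {s | ∃ d : F.Datum, Essential p ν d ∧ slopes p ν d = s}

/-- A reduction of `A₀ × A₁ × A₂ × B` over a finite field with `p ^ a` elements, with Frobenius
endomorphism `π`. -/
structure Red (p : ℕ) [Fact p.Prime] (ν : PadicAlgCl p ≃+* ℂ) (d : F.Datum) where
  a : ℕ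
  pos : 0 < a
  π : d.X.H1
  frob : ∀ i, IsFrobenius p ν (d.X.factor i) a (π i)

variable {p : ℕ} [Fact p.Prime] {ν : PadicAlgCl p ≃+* ℂ}

/-- The reduction as an abelian variety over the finite field. -/
def Red.Y {d : F.Datum} (r : Red p ν d) : RedAV p ν := ⟨d.X, r.a, r.pos, r.π, r.frob⟩

variable {Ω : Type} [Field Ω] [CharZero Ω]

/-- `g` is the class `Tr (x₀ ∧ x₁ ∧ x₂ ∧ ι t)` of degree four on the reduction of
`A₀ × A₁ × A₂ × B`. Here `x₀`, `x₁`, `x₂`, `t` are the coordinates on the rational homology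
`H₁ = L × L × L × E`, with the field `E` of `B`, and `Tr` is the trace from `L` to `ℚ`. -/
def Red.IsClass {d : F.Datum} (r : Red p ν d) (g : CF Ω r.Y (Fin 4)) : Prop :=
  ∃ f : d.X.H1 [⋀^Fin 4]→ₗ[ℚ] ℚ, IsWeilForm B F.L F.ι d.Φ d.quad.type 1 f ∧
    ∀ v : Fin 4 → d.X.H1, g (fun k => (1 : Ω) ⊗ₜ[ℚ] v k) = ((f v : ℚ) : Ω)

/-- The system `𝒜` contains, for each of the finitely many slope types `s`, the class
`Tr (x₀ ∧ x₁ ∧ x₂ ∧ ι t)` on some reduction of `A₀ × A₁ × A₂ × B` for some CM types with the
slopes `s`. -/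
def InT (F : Frame B) (𝒜 : TSys p ν Ω) : Prop :=
  ∀ s ∈ slopeTypes p ν F, ∃ d : F.Datum, slopes p ν d = s ∧
    ∃ (r : Red p ν d) (g : CF Ω r.Y (Fin 4)), r.IsClass g ∧ 𝒜.A r.Y (Fin 4) g

/-- All Tate classes, of all degrees and over all finite extensions of the base field, on the
abelian variety `Y` belong to the system `𝒜`. -/
def AllTate (𝒜 : TSys p ν Ω) (Y : RedAV p ν) : Prop :=
  ∀ (s m : ℕ), 0 < s → ∀ f : CF Ω Y (Fin (2 * m)), IsTateClass Ω Y s m f → 𝒜.A Y (Fin (2 * m)) f

end

end Pool.Agent.N830.FT
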