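import Mathlib
import Pool.Agent.N830.FT.Stm
import Pool.Agent.N830.HC.Frame
import Pool.Agent.R937.TZ.Geo

/-!
# Existence of reductions, and slopes
-/

set_option linter.unusedSectionVars false

namespace Pool.Agent.N830.FT

open NumberField Module Pool.Agent.W495.TA Pool.Agent.R937.TZ Pool.Agent.N830.HC
  Pool.Agent.H204R3.CM Pool.Agent.W547.KB Pool.Agent.W547.LD
open Pool.Agent.W366.TA (val)
open scoped TensorProduct

noncomputable section

section

variable {L : Type} [Field L] [NumberField L] [IsCMField L] [IsGalois ℚ L]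

/-- Two embeddings of a field into a Galois field. -/
theorem exists_smul (j : L →+* ℂ) {E : Type} [Field E] [NumberField E] (φ φ' : E →+* L) :
    ∃ σ : L ≃ₐ[ℚ] L, σ • φ = φ' := by
  let _ := φ.toAlgebra
  let _ := (j.comp φ').toAlgebra
  have hfd : FiniteDimensional E L := Module.Finite.of_restrictScalars_finite ℚ E L
  let Ψ : L →ₐ[E] ℂ := IsAlgClosed.lift
  obtain ⟨σ, hσ⟩ := comp_surjective j (Ψ : L →+* ℂ)
  refine ⟨σ, RingHom.ext fun x => j.injective ?_⟩
  have h1 := RingHom.congr_fun hσ (φ x)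
  have h2 : Ψ (φ x) = j (φ' x) := Ψ.commutes x
  exact h1.trans h2

theorem bigA_of (j : L →+* ℂ) {A : CMPair} (φ : A.E →+* L) : BigA A j :=
  fun ψ => Pool.Agent.N830.HC.K.exists_factor j φ ψ

variable {p : ℕ} [Fact p.Prime] {ν : PadicAlgCl p ≃+* ℂ}

/-- Abelian varieties of CM type have reductions. -/
theorem exists_frob (j : L →+* ℂ) (A : CMPair) (φ : A.E →+* L) :
    ∃ (a : ℕ) (π : A.E), 0 < a ∧ IsFrobenius p ν A a π := by
  set S := hs A j φ with hSdef
  have hS : IsHalf S := isHalf_hs A j φ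
  obtain ⟨a, π₀, ha, hπ⟩ := Pool.Agent.W902.TB.honda val p ν L j S hS
  obtain ⟨π, hπ'⟩ : ∃ π : A.E, φ π = (π₀ : L) := by
    let K : IntermediateField ℚ L := (φ.toRatAlgHom).fieldRange
    have h1 : (π₀ : L) ∈ IntermediateField.fixedField (IntermediateField.fixingSubgroup K) := by
      rw [IntermediateField.mem_fixedField_iff]
      intro τ hτ
      refine (mem_fld S (π₀ : L)).1 π₀.2 τ ?_
      change Pool.Agent.W547.LD.tr τ S = S
      have h2 : τ • φ = φ := by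
        refine RingHom.ext fun x => ?_
        exact (IntermediateField.mem_fixingSubgroup_iff K τ).1 hτ (φ x) ⟨x, rfl⟩
      have h3 := Pool.Agent.W547.LD.tr_hs A j τ φ
      rw [h2] at h3
      exact h3
    rw [IsGalois.fixedField_fixingSubgroup] at h1
    obtain ⟨x, hx⟩ := h1
    exact ⟨x, hx⟩
  refine ⟨a, π, ha, ?_, fun ψ => ?_, ?_⟩
  · have h0 : IsIntegral ℤ (π₀ : fld S) := hπ.integral
    have h1 : IsIntegral ℤ (π₀ : L) := h0.map ((algebraMap (fld S) L).toIntAlgHom)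
    rw [← hπ'] at h1
    exact (isIntegral_algHom_iff φ.toIntAlgHom φ.injective).1 h1
  · obtain ⟨φ', hφ'⟩ := bigA_of j φ ψ
    obtain ⟨σ, rfl⟩ := exists_smul j φ φ'
    have h1 := hπ.weil (j.comp (emb S σ))
    rw [← h1, ← hφ']
    change ‖j (σ (φ π))‖ ^ 2 = ‖j (σ (π₀ : L))‖ ^ 2
    rw [hπ']
  · refine (val p ν L j A (bigA_of j φ) a π).2 fun φ' => ?_
    obtain ⟨σ, rfl⟩ := exists_smul j φ φ'
    have hbig : BigA (pairOf j S hS) j := fun ψ => by
      obtain ⟨τ, hτ⟩ := exists_embC j S ψ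
      exact ⟨emb S τ, hτ.symm⟩
    have h1 := (val p ν L j (pairOf j S hS) hbig a π₀).1 hπ.shimuraTaniyama (emb S σ)
    have h2 : hs (pairOf j S hS) j (emb S σ) = hs A j (σ • φ) := by
      have h3 : hs (pairOf j S hS) j (emb S σ) = Pool.Agent.W547.LD.tr σ S := by
        ext τ
        rw [mem_tr, ← mem_typ j S (τ * σ)]
        exact Iff.rfl
      rw [h3, hSdef]
      exact Pool.Agent.W547.LD.tr_hs A j σ φ
    rw [h2] at h1
    have h4 : (σ • φ) π = σ (π₀ : L) := by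
      rw [← hπ']
      rfl
    rw [h4]
    exact h1

/-- Products have reductions. -/
theorem exists_red (j : L →+* ℂ) (X : CMAV) (hX : ∀ i, Nonempty ((X.factor i).E →+* L)) :
    ∃ (a : ℕ) (π : X.H1), 0 < a ∧ ∀ i, IsFrobenius p ν (X.factor i) a (π i) := by
  classical
  choose a π ha hπ using fun i => exists_frob (p := p) (ν := ν) j (X.factor i) (hX i).some
  refine ⟨∏ i, a i, fun i => π i ^ (∏ i' ∈ Finset.univ.erase i, a i'),
    Finset.prod_pos fun i _ => ha i, fun i => ?_⟩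
  have h1 := Pool.Agent.W976.TA.isFrob_pow (hπ i) (∏ i' ∈ Finset.univ.erase i, a i')
  have h2 : a i * ∏ i' ∈ Finset.univ.erase i, a i' = ∏ i, a i :=
    Finset.mul_prod_erase _ _ (Finset.mem_univ i)
  rw [h2] at h1
  exact h1

/-- Slopes and the functions on the Galois group. -/
theorem tf_slope (j : L →+* ℂ) (Ψ : Set (L →+* ℂ)) (σ : L ≃ₐ[ℚ] L) :
    (Nat.card (Dec p ν j) : ℤ) + tf p ν j {τ | j.comp (τ : L →+* L) ∈ Ψ} σ =
      2 * (slope p ν Ψ (j.comp (σ : L →+* L)) : ℤ) := by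
  classical
  have h1 := Pool.Agent.W366.TA.card_tf (p := p) (ν := ν) j
    {τ | j.comp ((τ * σ : L ≃ₐ[ℚ] L) : L →+* L) ∈ Ψ}
  have h2 : tf p ν j {τ | j.comp ((τ * σ : L ≃ₐ[ℚ] L) : L →+* L) ∈ Ψ} 1 =
      tf p ν j {τ | j.comp (τ : L →+* L) ∈ Ψ} σ := by
    unfold tf
    refine Finset.sum_congr rfl fun d _ => ?_
    have h : (d * 1 ∈ {τ : L ≃ₐ[ℚ] L | j.comp ((τ * σ : L ≃ₐ[ℚ] L) : L →+* L) ∈ Ψ}) ↔
        (d * σ ∈ {τ : L ≃ₐ[ℚ] L | j.comp (τ : L →+* L) ∈ Ψ}) := by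
      rw [mul_one]
      exact Iff.rfl
    simp only [h]
  rw [h2] at h1
  rw [h1]
  congr 2
  have h3 := Pool.Agent.W366.TA.card_fib
    (Pool.Agent.W366.TA.toPl (p := p) (ν := ν) j (σ : L →+* L)) 1 (fun b => by
      rw [Pool.Agent.W366.TA.card_fibre]
      refine Nat.card_eq_one_iff_unique.2 ⟨⟨fun x y => ?_⟩, ⟨⟨1, one_smul _ _⟩⟩⟩
      have key : ∀ z : {d : Dec p ν j // (d : L ≃ₐ[ℚ] L) • (σ : L →+* L) = (σ : L →+* L)},
          (z.1 : L ≃ₐ[ℚ] L) = 1 := by
        intro z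
        refine AlgEquiv.ext fun x => ?_
        have h4 := RingHom.congr_fun z.2 (σ.symm x)
        have h5 : (z.1 : L ≃ₐ[ℚ] L) (σ (σ.symm x)) = σ (σ.symm x) := h4
        rwa [AlgEquiv.apply_symm_apply] at h5
      exact Subtype.ext (Subtype.ext ((key x).trans (key y).symm))) (fun b => b.1 ∈ Ψ)
  rw [one_mul, Nat.card_congr (Equiv.subtypeSubtypeEquivSubtypeInter _ _)] at h3
  exact h3

end

end

end Pool.Agent.N830.FT
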