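import Mathlib
import Pool.Agent.N830.FT.A

/-!
# The monomials in the class of degree four
-/

set_option linter.unusedSectionVars false

namespace Pool.Agent.N830.FT

open NumberField Module Pool.Agent.W495.TA Pool.Agent.R937.TZ Pool.Agent.N830.HC
  Pool.Agent.H204R3.CM Pool.Agent.W547.KB Pool.Agent.W547.LD Pool.Agent.W417.TA
open Pool.Agent.W333.TA (co_F_pow)
open Pool.Agent.W82.TA (co_eq_coord)
open scoped TensorProduct

noncomputable section

variable {L : Type} [Field L] [NumberField L] [IsCMField L] [IsGalois ℚ L]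
  {p : ℕ} [Fact p.Prime] {ν : PadicAlgCl p ≃+* ℂ} {Ω : Type} [Field Ω] [CharZero Ω]

/-- The translate of a weight. -/
abbrev trW {X : CMAV} (τ : L ≃ₐ[ℚ] L) (w : Wt X L) : Wt X L := ⟨w.1, (τ : L →+* L).comp w.2⟩

/-- The monomials in a class are obtained by pull-back along endomorphisms of the Tate module. -/
theorem mono_of_tr (𝒜 : TSys p ν Ω) (j : L →+* ℂ) (jO : L →+* Ω) {Y : RedAV p ν} (hY : Big Y.X j)
    {κ : Type} [Fintype κ] [DecidableEq κ] (J : κ → Wt Y.X L) (k0 : κ)
    (hinj : ∀ k k', (J k).1 = (J k').1 → k = k')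
    (h0 : ∀ τ τ' : L ≃ₐ[ℚ] L, (τ : L →+* L).comp (J k0).2 = (τ' : L →+* L).comp (J k0).2 → τ = τ')
    (h : 𝒜.A Y κ (trO jO 1 J)) (τ : L ≃ₐ[ℚ] L) :
    𝒜.A Y κ (monoO jO fun k => trW τ (J k)) := by
  classical
  obtain ⟨e, he1, he2⟩ := Pool.Agent.W67.TA.basis p ν Ω L j jO Y hY
  have hc := co_eq_coord jO e he1 he2
  have hext : ∀ v v' : TM Ω Y, (∀ w, co jO w v = co jO w v') → v = v' := by
    intro v v' h
    refine e.ext_elem fun w => ?_
    have h3 := h w
    rw [hc w] at h3
    exact h3
  let I : κ → Wt Y.X L := fun k => trW τ (J k)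
  have hI : Function.Injective I := by
    intro k k' hkk
    have h1 := congrArg Sigma.fst hkk
    exact hinj k k' h1
  let P : TM Ω Y →ₗ[Ω] TM Ω Y := ∑ k, (co jO (I k)).smulRight (e (I k))
  have hP : ∀ w v, co jO w (P v) = ∑ k, co jO (I k) v * co jO w (e (I k)) := by
    intro w v
    change co jO w ((∑ k, (co jO (I k)).smulRight (e (I k))) v) = _
    rw [LinearMap.sum_apply, map_sum]
    refine Finset.sum_congr rfl fun k _ => ?_
    rw [LinearMap.smulRight_apply, map_smul, smul_eq_mul]
  have hPI : ∀ k v, co jO (I k) (P v) = co jO (I k) v := by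
    intro k v
    rw [hP, Finset.sum_eq_single k, he1, mul_one]
    · intro k' _ hk
      rw [he2 _ _ (fun h => hk (hI h).symm), mul_zero]
    · intro h
      exact absurd (Finset.mem_univ _) h
  have hP0 : ∀ (τ' : L ≃ₐ[ℚ] L), τ' ≠ τ → ∀ v, co jO (trW τ' (J k0)) (P v) = 0 := by
    intro τ' hτ' v
    rw [hP]
    refine Finset.sum_eq_zero fun k _ => ?_
    rw [he2 _ _ ?_, mul_zero]
    intro hk
    have h5 := congrArg Sigma.fst hk
    have h1 : k0 = k := hinj k0 k h5
    subst h1
    have h2 : (τ' : L →+* L).comp (J k0).2 = (τ : L →+* L).comp (J k0).2 := by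
      have h3 := Sigma.mk.inj_iff.1 hk
      exact eq_of_heq h3.2
    exact hτ' (h0 _ _ h2)
  have hF : IsFrobHom Ω Y Y P := by
    refine ⟨1, 1, one_pos, one_pos, rfl, fun v => ?_⟩
    refine hext _ _ fun w => ?_
    rw [hP, co_F_pow, hP, Finset.mul_sum]
    refine Finset.sum_congr rfl fun k _ => ?_
    by_cases hw : w = I k
    · subst hw
      rw [co_F_pow]
      ring
    · rw [he2 _ _ hw, mul_zero, mul_zero, mul_zero]
  have hmono : (trO jO 1 J).compLinearMap P = monoO jO I := by
    refine AlternatingMap.ext fun v => ?_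
    unfold trO
    rw [AlternatingMap.compLinearMap_apply, alt_sum_apply, Finset.sum_eq_single τ]
    · rw [map_one, map_one, one_smul, monoO_apply, monoO_apply]
      refine Finset.sum_congr rfl fun π _ => ?_
      congr 1
      exact Finset.prod_congr rfl fun k _ => hPI k _
    · intro τ' _ hτ'
      rw [AlternatingMap.smul_apply, monoO_apply, Finset.sum_eq_zero, smul_zero]
      intro π _
      rw [Finset.prod_eq_zero (Finset.mem_univ k0), mul_zero]
      exact hP0 τ' hτ' _
    · intro hcon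
      exact absurd (Finset.mem_univ _) hcon
  rw [← hmono]
  exact 𝒜.pull P hF _ h

end

end Pool.Agent.N830.FT
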