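import Mathlib
import Pool.Agent.N830.FT.B

/-!
# Quadruples of half systems
-/

set_option linter.unusedSectionVars false

namespace Pool.Agent.N830.FT

open NumberField Module Pool.Agent.W495.TA Pool.Agent.R937.TZ Pool.Agent.N830.HC
  Pool.Agent.H204R3.CM Pool.Agent.W547.KB Pool.Agent.W547.LD Pool.Agent.W417.TA
open scoped TensorProduct

noncomputable section

variable {p : ℕ} [Fact p.Prime] {ν : PadicAlgCl p ≃+* ℂ} {Ω : Type} [Field Ω] [CharZero Ω]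

section

variable {L : Type} [Field L] [NumberField L] [IsCMField L] [IsGalois ℚ L] (j : L →+* ℂ)

theorem tf_tr (S : Set (L ≃ₐ[ℚ] L)) (σ x : L ≃ₐ[ℚ] L) :
    tf p ν j {τ | τ * σ ∈ S} x = tf p ν j S (x * σ) := by
  classical
  unfold tf
  refine Finset.sum_congr rfl fun d _ => ?_
  have h : (d * x ∈ {τ : L ≃ₐ[ℚ] L | τ * σ ∈ S}) ↔ (d * (x * σ) ∈ S) := by
    change d * x * σ ∈ S ↔ _
    rw [mul_assoc]
  simp only [h]

theorem tf_compl (S : Set (L ≃ₐ[ℚ] L)) : tf p ν j Sᶜ = -tf p ν j S := by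
  classical
  funext x
  rw [Pi.neg_apply]
  unfold tf
  rw [← Finset.sum_neg_distrib]
  refine Finset.sum_congr rfl fun d _ => ?_
  by_cases h : d ∈ Dec p ν j
  · rw [if_pos h, if_pos h]
    by_cases h' : d * x ∈ S
    · rw [if_pos h', if_neg (by simpa using h')]
    · rw [if_neg h', if_pos (by simpa using h'), neg_neg]
  · rw [if_neg h, if_neg h, neg_zero]

theorem tf_of_slope {Ψ Ψ' : Set (L →+* ℂ)} (h : slope p ν Ψ = slope p ν Ψ') :
    tf p ν j {τ | j.comp (τ : L →+* L) ∈ Ψ} = tf p ν j {τ | j.comp (τ : L →+* L) ∈ Ψ'} := by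
  funext σ
  have h1 := tf_slope (p := p) (ν := ν) j Ψ σ
  have h2 := tf_slope (p := p) (ν := ν) j Ψ' σ
  rw [h] at h1
  linarith

theorem slope_of_tf {Ψ Ψ' : Set (L →+* ℂ)} (h : tf p ν j {τ | j.comp (τ : L →+* L) ∈ Ψ} =
    tf p ν j {τ | j.comp (τ : L →+* L) ∈ Ψ'}) : slope p ν Ψ = slope p ν Ψ' := by
  funext φ
  obtain ⟨σ, rfl⟩ := comp_surjective j φ
  change slope p ν Ψ (j.comp (σ : L →+* L)) = slope p ν Ψ' (j.comp (σ : L →+* L))
  have h1 := tf_slope (p := p) (ν := ν) j Ψ σ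
  have h2 := tf_slope (p := p) (ν := ν) j Ψ' σ
  rw [h] at h1
  have h3 : (2 * (slope p ν Ψ (j.comp (σ : L →+* L)) : ℤ)) =
      2 * (slope p ν Ψ' (j.comp (σ : L →+* L)) : ℤ) := h1.symm.trans h2
  exact_mod_cast mul_left_cancel₀ (two_ne_zero) h3

/-- Balanced families. -/
theorem tf_balanced {κ : Type} [Fintype κ] {s : κ → Set (L ≃ₐ[ℚ] L)} (hs : Balanced s)
    (x : L ≃ₐ[ℚ] L) : ∑ k, tf p ν j (s k) x = 0 := by
  classical
  unfold tf
  rw [Finset.sum_comm]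
  refine Finset.sum_eq_zero fun d _ => ?_
  by_cases h : d ∈ Dec p ν j
  · simp only [if_pos h]
    have h1 := hs (d * x)
    convert h1
  · simp only [if_neg h, Finset.sum_const_zero]

/-- Two pairs. -/
theorem pairs4 {G : Type} {Q : (κ : Type) → (κ → G → ℤ) → Prop} (hQ : Closed G Q)
    (t : Fin 4 → G → ℤ) (f g : G → ℤ) (e : Fin 2 ⊕ Fin 2 → Fin 4) (he : Function.Bijective e)
    (h : ∀ k, t (e k) = Sum.elim ![f, -f] ![g, -g] k) : Q (Fin 4) t :=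
  hQ.reindex _ _ (Equiv.ofBijective e he) _ _ h (hQ.sum _ _ _ _ (hQ.pair f) (hQ.pair g))

end

variable {B : CMPair} {F : Frame B} {𝒜 : TSys p ν Ω}

/-- The four CM types: the types of `A₀`, `A₁`, `A₂`, and the type induced from `B`. -/
def types (d : F.Datum) : Fin 4 → Set (F.L →+* ℂ) :=
  ![d.Φ 0, d.Φ 1, d.Φ 2, {φ | φ.comp F.ι ∈ B.Φ}]

/-- The weights. -/
def Jw (d : F.Datum) : Fin 4 → Wt (threeB B F.L d.Φ d.quad.type) F.L :=
  ![⟨Sum.inl 0, RingHom.id F.L⟩, ⟨Sum.inl 1, RingHom.id F.L⟩, ⟨Sum.inl 2, RingHom.id F.L⟩,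
    ⟨Sum.inr (), F.ι⟩]

theorem big_threeB (d : F.Datum) : Big (threeB B F.L d.Φ d.quad.type) F.j := by
  intro i ψ
  rcases i with i | i
  · obtain ⟨σ, hσ⟩ := comp_surjective F.j ψ
    exact ⟨(σ : F.L →+* F.L), hσ⟩
  · exact bigA_of F.j F.ι ψ

theorem trForm_isClass (d : F.Datum) :
    IsWeilForm B F.L F.ι d.Φ d.quad.type 1 (trForm 1 (Jw d)) := by
  intro x t
  rw [trForm_apply, mono_eq_det]
  congr 3

theorem trForm_eq (d : F.Datum) (f : d.X.H1 [⋀^Fin 4]→ₗ[ℚ] ℚ)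
    (hf : IsWeilForm B F.L F.ι d.Φ d.quad.type 1 f) :
    f = trForm 1 (Jw d) := by
  obtain ⟨f0, h1, -⟩ := exists_form B F.ι d.Φ d.quad
  rw [(h1 f).1 hf]
  exact ((h1 _).1 (trForm_isClass d)).symm

theorem Jw_inj (d : F.Datum) (k k' : Fin 4) (h : (Jw d k).1 = (Jw d k').1) : k = k' := by
  fin_cases k <;> fin_cases k' <;> first | rfl | (exfalso; revert h; simp [Jw])

theorem St_Jw (d : F.Datum) (τ : F.L ≃ₐ[ℚ] F.L) (k : Fin 4) : St F.j (trW τ (Jw d k)) =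
    {σ | F.j.comp ((σ * τ : F.L ≃ₐ[ℚ] F.L) : F.L →+* F.L) ∈ types d k} := by
  ext σ
  fin_cases k <;> exact Iff.rfl

/-- The functions of a datum. -/
theorem qt_of_class (d : F.Datum) (r : Red p ν d) (g : CF Ω r.Y (Fin 4)) (hg : r.IsClass g)
    (h : 𝒜.A r.Y (Fin 4) g) (jO : F.L →+* Ω) (τ : F.L ≃ₐ[ℚ] F.L) :
    QT 𝒜 F.j jO (Fin 4) fun k => tf p ν F.j
      {σ | F.j.comp ((σ * τ : F.L ≃ₐ[ℚ] F.L) : F.L →+* F.L) ∈ types d k} := by
  obtain ⟨f, hf, hgf⟩ := hg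
  have hg' : g = trO jO 1 (Y := r.Y) (Jw d) := by
    refine ext_tmul fun v => ?_
    refine (hgf v).trans ?_
    rw [trForm_eq d f hf]
    exact (trO_tmul (Y := r.Y) jO 1 (Jw d) v).symm
  rw [hg'] at h
  have h1 := mono_of_tr 𝒜 F.j jO (Y := r.Y) (big_threeB d) (Jw d) 0 (Jw_inj d)
    (fun τ τ' hh => AlgEquiv.ext fun x => RingHom.congr_fun hh x) h τ
  have h2 := @pullS p _ ν Ω _ _ F.L _ _ _ _ 𝒜 F.j jO r.Y (big_threeB d) (Fin 4) _ _
    (fun k => trW τ (Jw d k)) (fun k k' hkk => Jw_inj d k k' (by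
      have h3 := congrArg Sigma.fst hkk
      exact h3)) h1
  have h3 : (fun k => tf p ν F.j (St F.j (trW τ (Jw d k)))) = fun k => tf p ν F.j
      {σ | F.j.comp ((σ * τ : F.L ≃ₐ[ℚ] F.L) : F.L →+* F.L) ∈ types d k} :=
    funext fun k => congrArg _ (St_Jw d τ k)
  intro _ _ Y hY I hI
  refine @h2 _ _ Y hY I fun k => ?_
  exact (hI k).trans (congrFun h3 k).symm

/-- The functions of an essential datum. -/
theorem qt_of_in (hF : InT F 𝒜) (d : F.Datum) (hd : Essential p ν d) (jO : F.L →+* Ω)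
    (τ : F.L ≃ₐ[ℚ] F.L) : QT 𝒜 F.j jO (Fin 4) fun k => tf p ν F.j
      {σ | F.j.comp ((σ * τ : F.L ≃ₐ[ℚ] F.L) : F.L →+* F.L) ∈ types d k} := by
  obtain ⟨d', hs, r, g, hg, h⟩ := hF _ ⟨d, hd, rfl⟩
  have h1 := @qt_of_class p _ ν Ω _ _ B F 𝒜 d' r g hg h jO τ
  have h2 : (fun k => tf p ν F.j
      {σ | F.j.comp ((σ * τ : F.L ≃ₐ[ℚ] F.L) : F.L →+* F.L) ∈ types d' k}) =
      fun k => tf p ν F.j
      {σ | F.j.comp ((σ * τ : F.L ≃ₐ[ℚ] F.L) : F.L →+* F.L) ∈ types d k} := by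
    funext k
    have h3 : slope p ν (types d' k) = slope p ν (types d k) := by
      fin_cases k
      · exact congrFun hs 0
      · exact congrFun hs 1
      · exact congrFun hs 2
      · rfl
    have h4 := tf_of_slope (p := p) (ν := ν) F.j h3
    funext x
    have h5 := tf_tr (p := p) (ν := ν) F.j
      {σ | F.j.comp (σ : F.L →+* F.L) ∈ types d' k} τ x
    have h6 := tf_tr (p := p) (ν := ν) F.j
      {σ | F.j.comp (σ : F.L →+* F.L) ∈ types d k} τ x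
    exact h5.trans ((congrFun h4 (x * τ)).trans h6.symm)
  rw [h2] at h1
  exact @h1

end

end Pool.Agent.N830.FT
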