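import Mathlib
import Pool.Agent.N830.FT.A
import Pool.Agent.N830.HC.Count

/-!
# The number of slope types
-/

set_option linter.unusedSectionVars false

namespace Pool.Agent.N830.FT

open NumberField Pool.Agent.H204R3.CM Pool.Agent.W547.KB Pool.Agent.W547.LD Pool.Agent.W495.TA Module
  Pool.Agent.N830.HC
open Pool.Agent.N830.HC.K (tog ind quad_iff conj_ne' mk_conj conj_conj conj_eq_iff mem_tog tog_type
  card_types compl_type ind_type)

noncomputable section

/-! ### Places -/

section place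

variable {p : ℕ} [Fact p.Prime] {ν : PadicAlgCl p ≃+* ℂ} {L : Type} [Field L]

theorem sp_rfl (φ : L →+* ℂ) : SamePlace p ν φ φ :=
  ⟨1, fun _ => (ν.apply_symm_apply _).symm⟩

theorem sp_symm {φ φ' : L →+* ℂ} (h : SamePlace p ν φ φ') : SamePlace p ν φ' φ := by
  obtain ⟨τ, hτ⟩ := h
  refine ⟨τ⁻¹, fun x => ?_⟩
  rw [hτ, ν.symm_apply_apply]
  change φ x = ν (τ.symm (τ (ν.symm (φ x))))
  rw [τ.symm_apply_apply, ν.apply_symm_apply]

theorem sp_trans {φ φ' φ'' : L →+* ℂ} (h : SamePlace p ν φ φ')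
    (h' : SamePlace p ν φ' φ'') : SamePlace p ν φ φ'' := by
  obtain ⟨τ, hτ⟩ := h
  obtain ⟨τ', hτ'⟩ := h'
  refine ⟨τ' * τ, fun x => ?_⟩
  rw [hτ', hτ, ν.symm_apply_apply]
  rfl

theorem sp_comp {φ φ' : L →+* ℂ} (h : SamePlace p ν φ φ') (ρ : L →+* L) :
    SamePlace p ν (φ.comp ρ) (φ'.comp ρ) := by
  obtain ⟨τ, hτ⟩ := h
  exact ⟨τ, fun x => hτ (ρ x)⟩

variable [NumberField L] [IsCMField L] [IsGalois ℚ L]

theorem comp_cc' (φ : L →+* ℂ) : φ.comp (cc L : L →+* L) = ComplexEmbedding.conjugate φ := by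
  have h := comp_cc φ (1 : L ≃ₐ[ℚ] L)
  rw [mul_one] at h
  have h1 : φ.comp ((1 : L ≃ₐ[ℚ] L) : L →+* L) = φ := RingHom.ext fun x => rfl
  rw [h1] at h
  exact h

theorem sp_conj {φ φ' : L →+* ℂ} (h : SamePlace p ν φ φ') :
    SamePlace p ν (ComplexEmbedding.conjugate φ) (ComplexEmbedding.conjugate φ') := by
  rw [← comp_cc', ← comp_cc']
  exact sp_comp h _

theorem sp_conj_iff {φ φ' : L →+* ℂ} : SamePlace p ν (ComplexEmbedding.conjugate φ) φ' ↔
    SamePlace p ν φ (ComplexEmbedding.conjugate φ') := by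
  constructor
  · intro h
    have h1 := sp_conj h
    rwa [conj_conj] at h1
  · intro h
    have h1 := sp_conj h
    rwa [conj_conj] at h1

/-- All places have the same degree. -/
theorem card_place (j φ : L →+* ℂ) : Nat.card {φ' : L →+* ℂ // SamePlace p ν φ φ'} =
    Nat.card {φ' : L →+* ℂ // SamePlace p ν j φ'} := by
  obtain ⟨σ, rfl⟩ := comp_surjective j φ
  refine Nat.card_congr
    { toFun := fun φ' => ⟨φ'.1.comp (σ.symm : L →+* L), ?_⟩
      invFun := fun φ' => ⟨φ'.1.comp (σ : L →+* L), sp_comp φ'.2 _⟩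
      left_inv := fun φ' => Subtype.ext (RingHom.ext fun x => ?_)
      right_inv := fun φ' => Subtype.ext (RingHom.ext fun x => ?_) }
  · have h := sp_comp φ'.2 (σ.symm : L →+* L)
    have h1 : (j.comp (σ : L →+* L)).comp (σ.symm : L →+* L) = j :=
      RingHom.ext fun x => congrArg j (σ.apply_symm_apply x)
    have h2 : SamePlace p ν ((j.comp (σ : L →+* L)).comp (σ.symm : L →+* L))
        (φ'.1.comp (σ.symm : L →+* L)) := h
    rw [h1] at h2
    exact h2
  · exact congrArg φ'.1 (σ.symm_apply_apply x)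
  · exact congrArg φ'.1 (σ.apply_symm_apply x)

/-- If one place is stable under complex conjugation, then all places. -/
theorem self_conj {φ₀ : L →+* ℂ} (h : SamePlace p ν φ₀ (ComplexEmbedding.conjugate φ₀))
    (φ : L →+* ℂ) : SamePlace p ν φ (ComplexEmbedding.conjugate φ) := by
  obtain ⟨σ, rfl⟩ := comp_surjective φ₀ φ
  exact sp_comp h _

/-! ### Slopes -/

theorem slope_place {Ψ : Set (L →+* ℂ)} {φ φ' : L →+* ℂ} (h : SamePlace p ν φ φ') :
    slope p ν Ψ φ = slope p ν Ψ φ' :=
  Nat.card_congr (Equiv.subtypeEquivRight fun _ =>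
    ⟨fun h1 => ⟨sp_trans (sp_symm h) h1.1, h1.2⟩, fun h1 => ⟨sp_trans h h1.1, h1.2⟩⟩)

open Classical in
theorem slope_eq (Ψ : Set (L →+* ℂ)) (φ : L →+* ℂ) : slope p ν Ψ φ =
    ∑ φ' ∈ Finset.univ.filter (fun φ' => SamePlace p ν φ φ'), if φ' ∈ Ψ then 1 else 0 := by
  unfold slope
  rw [Nat.card_eq_fintype_card, Fintype.card_subtype, ← Finset.card_filter, Finset.filter_filter]

open Classical in
theorem card_eq_sum' (φ : L →+* ℂ) : Nat.card {φ' : L →+* ℂ // SamePlace p ν φ φ'} =
    ∑ φ' ∈ Finset.univ.filter (fun φ' => SamePlace p ν φ φ'), 1 := by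
  rw [Nat.card_eq_fintype_card, Fintype.card_subtype, Finset.card_eq_sum_ones]

theorem slope_conj {Ψ : Set (L →+* ℂ)} (h : IsCMType Ψ) (φ : L →+* ℂ) :
    slope p ν Ψ φ + slope p ν Ψ (ComplexEmbedding.conjugate φ) =
      Nat.card {φ' : L →+* ℂ // SamePlace p ν φ φ'} := by
  classical
  have h1 : slope p ν Ψ (ComplexEmbedding.conjugate φ) =
      ∑ φ' ∈ Finset.univ.filter (fun φ' => SamePlace p ν φ φ'), if φ' ∈ Ψ then 0 else 1 := by
    have h2 : slope p ν Ψ (ComplexEmbedding.conjugate φ) =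
        Nat.card {φ' : L →+* ℂ // SamePlace p ν φ φ' ∧ φ' ∉ Ψ} := by
      refine Nat.card_congr
        { toFun := fun φ' => ⟨ComplexEmbedding.conjugate φ'.1, sp_conj_iff.1 φ'.2.1,
            (h φ'.1).1 φ'.2.2⟩
          invFun := fun φ' => ⟨ComplexEmbedding.conjugate φ'.1, ?_, ?_⟩
          left_inv := fun φ' => Subtype.ext (conj_conj φ'.1)
          right_inv := fun φ' => Subtype.ext (conj_conj φ'.1) }
      · rw [sp_conj_iff, conj_conj]
        exact φ'.2.1
      · rw [h, conj_conj]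
        exact φ'.2.2
    rw [h2, Nat.card_eq_fintype_card, Fintype.card_subtype, ← Finset.filter_filter,
      Finset.card_filter]
    exact Finset.sum_congr rfl fun φ' _ => by
      by_cases h3 : φ' ∈ Ψ
      · rw [if_neg (not_not.2 h3), if_pos h3]
      · rw [if_pos h3, if_neg h3]
  rw [h1, slope_eq, card_eq_sum', ← Finset.sum_add_distrib]
  refine Finset.sum_congr rfl fun φ' _ => ?_
  by_cases h3 : φ' ∈ Ψ
  · rw [if_pos h3, if_pos h3]
  · rw [if_neg h3, if_neg h3]

theorem slope_le (Ψ : Set (L →+* ℂ)) (φ : L →+* ℂ) :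
    slope p ν Ψ φ ≤ Nat.card {φ' : L →+* ℂ // SamePlace p ν φ φ'} := by
  classical
  rw [slope_eq, card_eq_sum']
  refine Finset.sum_le_sum fun φ' _ => ?_
  split_ifs <;> omega

theorem slope_pos {Ψ : Set (L →+* ℂ)} {φ : L →+* ℂ} (h : φ ∈ Ψ) : 1 ≤ slope p ν Ψ φ :=
  Nat.card_pos_iff.2 ⟨⟨⟨φ, sp_rfl φ, h⟩⟩, inferInstance⟩

open Classical in
/-- The slopes of two CM types with one common element. -/
theorem slope_tog {a : L →+* ℂ} {Ψ : Set (L →+* ℂ)} (h : IsCMType Ψ) (ha : a ∈ Ψ)
    (φ : L →+* ℂ) : slope p ν Ψ φ + slope p ν (tog a Ψ) φ =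
      ∑ φ' ∈ Finset.univ.filter (fun φ' => SamePlace p ν φ φ'),
        if φ' = a then 2 else if φ' = ComplexEmbedding.conjugate a then 0 else 1 := by
  rw [slope_eq, slope_eq, ← Finset.sum_add_distrib]
  refine Finset.sum_congr rfl fun φ' _ => ?_
  by_cases h1 : φ' = a
  · rw [if_pos h1, if_pos (by rw [h1]; exact ha), if_pos (by rw [mem_tog]; exact Or.inl h1)]
  · by_cases h2 : φ' = ComplexEmbedding.conjugate a
    · have h3 : φ' ∉ Ψ := by
        rw [h2]
        exact (h a).1 ha
      rw [if_neg h1, if_pos h2, if_neg h3, if_neg]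
      rw [mem_tog]
      tauto
    · rw [if_neg h1, if_neg h2]
      by_cases h3 : φ' ∈ Ψ
      · rw [if_pos h3, if_neg]
        rw [mem_tog]
        tauto
      · rw [if_neg h3, if_pos]
        rw [mem_tog]
        tauto

/-! ### Pairs of places -/

variable (p ν L) in
/-- Pairs of conjugate places. -/
def ps : Setoid (L →+* ℂ) where
  r φ φ' := SamePlace p ν φ φ' ∨ SamePlace p ν φ (ComplexEmbedding.conjugate φ')
  iseqv := by
    refine ⟨fun φ => Or.inl (sp_rfl φ), ?_, ?_⟩
    · rintro φ φ' (h | h)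
      · exact Or.inl (sp_symm h)
      · exact Or.inr (sp_conj_iff.1 (sp_symm h))
    · rintro φ φ' φ'' (h | h) (h' | h')
      · exact Or.inl (sp_trans h h')
      · exact Or.inr (sp_trans h h')
      · exact Or.inr (sp_trans h (sp_conj h'))
      · refine Or.inl (sp_trans h ?_)
        have h1 := sp_conj h'
        rwa [conj_conj] at h1

variable (p ν L) in
abbrev PP : Type := Quotient (ps p ν L)

instance : Finite (PP p ν L) := inferInstanceAs (Finite (Quotient (ps p ν L)))

/-- The number of pairs. -/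
theorem card_PP (j : L →+* ℂ) (hns : ¬ SamePlace p ν j (ComplexEmbedding.conjugate j)) :
    finrank ℚ L = 2 * Nat.card {φ' : L →+* ℂ // SamePlace p ν j φ'} * Nat.card (PP p ν L) := by
  classical
  have h1 := Pool.Agent.W366.TA.card_fib (fun φ : L →+* ℂ => (Quotient.mk (ps p ν L) φ))
    (2 * Nat.card {φ' : L →+* ℂ // SamePlace p ν j φ'}) (fun b => by
      obtain ⟨φ, rfl⟩ := Quotient.exists_rep b
      have e : {a : L →+* ℂ // Quotient.mk (ps p ν L) a = Quotient.mk (ps p ν L) φ} ≃
          {a : L →+* ℂ // SamePlace p ν φ a} ⊕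
            {a : L →+* ℂ // SamePlace p ν (ComplexEmbedding.conjugate φ) a} := by
        refine (Equiv.subtypeEquivRight fun a => ?_).trans
          (subtypeOrEquiv (fun a => SamePlace p ν φ a)
            (fun a => SamePlace p ν (ComplexEmbedding.conjugate φ) a) ?_)
        · rw [Quotient.eq]
          change SamePlace p ν a φ ∨ SamePlace p ν a (ComplexEmbedding.conjugate φ) ↔ _
          constructor
          · rintro (h | h)
            · exact Or.inl (sp_symm h)
            · exact Or.inr (sp_symm h)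
          · rintro (h | h)
            · exact Or.inl (sp_symm h)
            · exact Or.inr (sp_symm h)
        · rw [Pi.disjoint_iff]
          intro a
          rw [Prop.disjoint_iff]
          intro hcon
          exact hns (self_conj (sp_trans hcon.1 (sp_symm hcon.2)) j)
      rw [Nat.card_congr e, Nat.card_sum, card_place j φ,
        card_place j (ComplexEmbedding.conjugate φ)]
      ring) (fun _ => True)
  have h2 : ∀ α : Type, Nat.card {a : α // True} = Nat.card α := fun α =>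
    Nat.card_congr (Equiv.subtypeUnivEquiv fun _ => trivial)
  rw [h2, h2] at h1
  rw [← h1, Nat.card_eq_fintype_card]
  exact (Embeddings.card L ℂ).symm

end place

end

end Pool.Agent.N830.FT
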