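import Mathlib
import Pool.Agent.N830.FT.Cnt

/-!
# The number of slope types
-/

set_option linter.unusedSectionVars false

namespace Pool.Agent.N830.FT

open NumberField Pool.Agent.H204R3.CM Pool.Agent.W547.KB Pool.Agent.W547.LD Pool.Agent.W495.TA Module
  Pool.Agent.N830.HC
open Pool.Agent.N830.HC.K (tog ind quad_iff conj_ne' mk_conj conj_conj conj_eq_iff mem_tog tog_type
  card_types compl_type ind_type)

noncomputable section

variable {B : CMPair}

theorem datum_ext {F : Frame B} {d d' : F.Datum} (h : d.Φ = d'.Φ) : d = d' := by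
  obtain ⟨Φ, hq⟩ := d
  obtain ⟨Φ', hq'⟩ := d'
  obtain rfl : Φ = Φ' := h
  rfl

/-- The number of data. -/
theorem card_datum (F : Frame B) (h : F.j' ≠ F.j) {m : ℕ} (hm : finrank ℚ F.L = 2 * m) :
    Nat.card F.Datum = 2 ^ (m - 2) - 1 := by
  classical
  have hc := F.ne
  have hmk : InfinitePlace.mk F.j' ≠ InfinitePlace.mk F.j := by
    intro h1
    rcases InfinitePlace.mk_eq_iff.1 h1 with h2 | h2
    · exact h h2
    · exact hc ((conj_eq_iff _ _).1 h2)
  let C := {Ψ : Set (F.L →+* ℂ) // IsCMType Ψ ∧ F.j ∈ Ψ ∧ F.j' ∈ Ψ}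
  let D : Set (F.L →+* ℂ) := if F.j' ∈ ind B F.ι then
    (tog (ComplexEmbedding.conjugate F.j) (ind B F.ι))ᶜ else (ind B F.ι)ᶜ
  have hmem : ComplexEmbedding.conjugate F.j ∈ ind B F.ι := F.mem
  have hne := conj_ne' F.j
  have h1 : F.j ∉ ind B F.ι := fun h2 => (ind_type F.ι F.j).1 h2 hmem
  -- the exceptional type
  have hD : IsCMType D ∧ F.j ∈ D ∧ F.j' ∈ D := by
    by_cases h2 : F.j' ∈ ind B F.ι
    · have h3 : D = (tog (ComplexEmbedding.conjugate F.j) (ind B F.ι))ᶜ := if_pos h2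
      rw [h3]
      refine ⟨compl_type (tog_type (ind_type _)), ?_, ?_⟩
      · rw [Set.mem_compl_iff, mem_tog, conj_conj]
        tauto
      · rw [Set.mem_compl_iff, mem_tog, conj_conj]
        tauto
    · have h3 : D = (ind B F.ι)ᶜ := if_neg h2
      rw [h3]
      exact ⟨compl_type (ind_type _), h1, h2⟩
  have hDi : ∀ Ψ : Set (F.L →+* ℂ), F.j' ∈ Ψ →
      ((Ψ ≠ (tog (ComplexEmbedding.conjugate F.j) (ind B F.ι))ᶜ ∧ Ψ ≠ (ind B F.ι)ᶜ) ↔ Ψ ≠ D) := by
    intro Ψ hΨ
    by_cases h2 : F.j' ∈ ind B F.ι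
    · have h3 : D = (tog (ComplexEmbedding.conjugate F.j) (ind B F.ι))ᶜ := if_pos h2
      rw [h3]
      refine ⟨fun h4 => h4.1, fun h4 => ⟨h4, ?_⟩⟩
      rintro rfl
      exact hΨ h2
    · have h3 : D = (ind B F.ι)ᶜ := if_neg h2
      rw [h3]
      refine ⟨fun h4 => h4.2, fun h4 => ⟨?_, h4⟩⟩
      rintro rfl
      apply hΨ
      rw [mem_tog, conj_conj]
      exact Or.inr ⟨h2, h⟩
  let e : F.Datum ≃ {Ψ : C // Ψ ≠ ⟨D, hD⟩} :=
    { toFun := fun d => ⟨⟨d.Φ 0, ((quad_iff _ _).1 d.quad).2.1⟩, fun h1 => by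
          have h2 := ((quad_iff _ _).1 d.quad).2.2.2.2
          exact (hDi _ ((quad_iff _ _).1 d.quad).2.1.2.2).1 h2 (congrArg Subtype.val h1)⟩
      invFun := fun q => ⟨![q.1.1, tog F.j q.1.1, tog (ComplexEmbedding.conjugate F.j) (ind B F.ι)],
        (quad_iff _ _).2 ⟨hmem, q.1.2, rfl, rfl,
          (hDi _ q.1.2.2.2).2 fun h1 => q.2 (Subtype.ext h1)⟩⟩
      left_inv := fun d => by
        have h1 := (quad_iff _ _).1 d.quad
        refine datum_ext (funext fun i => ?_)
        fin_cases i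
        · rfl
        · exact h1.2.2.1.symm
        · exact h1.2.2.2.1.symm
      right_inv := fun q => rfl }
  have hfC : Finite C := inferInstance
  have := Fintype.ofFinite C
  rw [Nat.card_congr e]
  have h2 := card_types hmk hm
  rw [← h2, Nat.card_eq_fintype_card, Nat.card_eq_fintype_card, Fintype.card_subtype_compl,
    Fintype.card_subtype_eq]

instance (F : Frame B) : Finite F.Datum :=
  Finite.of_injective (fun d : F.Datum => d.Φ) fun _ _ h => datum_ext h

variable (p : ℕ) [Fact p.Prime] (ν : PadicAlgCl p ≃+* ℂ)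

theorem slopeTypes_eq (F : Frame B) : slopeTypes p ν F =
    Set.range fun d : {d : F.Datum // Essential p ν d} => slopes p ν d.1 := by
  ext s
  constructor
  · rintro ⟨d, hd, rfl⟩
    exact ⟨⟨d, hd⟩, rfl⟩
  · rintro ⟨⟨d, hd⟩, rfl⟩
    exact ⟨d, hd, rfl⟩

theorem slopeTypes_finite (F : Frame B) : (slopeTypes p ν F).Finite := by
  rw [slopeTypes_eq]
  exact Set.finite_range _

theorem ncard_le_one (F : Frame B) (h : F.j' ≠ F.j) {m : ℕ} (hm : finrank ℚ F.L = 2 * m) :
    (slopeTypes p ν F).ncard ≤ 2 ^ (m - 2) - 1 := by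
  rw [slopeTypes_eq, ← card_datum F h hm]
  refine le_trans ?_ (Finite.card_subtype_le (α := F.Datum) (Essential p ν))
  exact Finite.card_range_le _

/-- The slopes of essential data are determined by the slopes of `A₀`. -/
theorem slopes_det {F : Frame B} {d d' : F.Datum}
    (h : ∀ φ, slope p ν (d.Φ 0) φ = slope p ν (d'.Φ 0) φ) : slopes p ν d = slopes p ν d' := by
  have h1 := (quad_iff _ _).1 d.quad
  have h1' := (quad_iff _ _).1 d'.quad
  have h2 : d.Φ 2 = d'.Φ 2 := by rw [h1.2.2.2.1, h1'.2.2.2.1]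
  have h3 : slope p ν (d.Φ 1) = slope p ν (d'.Φ 1) := by
    funext φ
    have h4 := slope_tog (p := p) (ν := ν) h1.2.1.1 h1.2.1.2.1 φ
    have h4' := slope_tog (p := p) (ν := ν) h1'.2.1.1 h1'.2.1.2.1 φ
    rw [← h1.2.2.1] at h4
    rw [← h1'.2.2.1] at h4'
    have h5 := h φ
    omega
  funext k
  fin_cases k
  · exact funext h
  · exact h3
  · exact congrArg (slope p ν) h2

open Classical in
/-- Representatives of the pairs of conjugate places. -/
def rp (F : Frame B) (C : PP p ν F.L) : F.L →+* ℂ :=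
  if C = Quotient.mk (ps p ν F.L) F.j then F.j else C.out

theorem rp_spec (F : Frame B) (C : PP p ν F.L) : Quotient.mk (ps p ν F.L) (rp p ν F C) = C := by
  unfold rp
  split_ifs with h
  · exact h.symm
  · exact Quotient.out_eq C

theorem rp_j (F : Frame B) : rp p ν F (Quotient.mk (ps p ν F.L) F.j) = F.j := if_pos rfl

/-- **The number of slope types.** -/
theorem ncard_le_two (F : Frame B) {m : ℕ} (hm : finrank ℚ F.L = 2 * m) {n : ℕ}
    (hn : n = Nat.card {φ : F.L →+* ℂ // SamePlace p ν F.j φ}) :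
    (slopeTypes p ν F).ncard ≤ n * (n + 1) ^ (m / n - 1) := by
  classical
  by_cases hns : SamePlace p ν F.j (ComplexEmbedding.conjugate F.j)
  · have h0 : slopeTypes p ν F = ∅ := by
      rw [Set.eq_empty_iff_forall_notMem]
      rintro _ ⟨d, hd, rfl⟩
      apply hd.1
      funext φ
      have h1 := self_conj hns φ
      have h2 := slope_conj (p := p) (ν := ν) (d.quad.type 0) φ
      have h3 := slope_conj (p := p) (ν := ν) (compl_type (d.quad.type 2)) φ
      rw [← slope_place h1] at h2 h3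
      omega
    rw [h0, Set.ncard_empty]
    exact Nat.zero_le _
  have hn0 : 0 < n := by
    rw [hn]
    exact Nat.card_pos_iff.2 ⟨⟨⟨F.j, sp_rfl F.j⟩⟩, inferInstance⟩
  have hfin : Finite (PP p ν F.L) := inferInstance
  have := Fintype.ofFinite (PP p ν F.L)
  have hPP := card_PP (p := p) (ν := ν) F.j hns
  rw [← hn, hm, mul_assoc] at hPP
  have hPP' : m / n = Fintype.card (PP p ν F.L) := by
    rw [← Nat.card_eq_fintype_card]
    have h1 : m = n * Nat.card (PP p ν F.L) := by omega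
    rw [h1, Nat.mul_div_cancel_left _ hn0]
  let c₀ : PP p ν F.L := Quotient.mk (ps p ν F.L) F.j
  let T : Finset (PP p ν F.L → ℕ) :=
    Fintype.piFinset fun C => if C = c₀ then Finset.Icc 1 n else Finset.Icc 0 n
  have hT : T.card = n * (n + 1) ^ (m / n - 1) := by
    rw [Fintype.card_piFinset, ← Finset.mul_prod_erase _ _ (Finset.mem_univ c₀), if_pos rfl,
      Nat.card_Icc, Finset.prod_congr rfl fun C hC => by
        rw [if_neg (Finset.ne_of_mem_erase hC), Nat.card_Icc], Finset.prod_const,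
      Finset.card_erase_of_mem (Finset.mem_univ c₀), Finset.card_univ, hPP']
    simp
  rw [← hT, ← Set.ncard_coe_finset]
  refine Set.ncard_le_ncard_of_injOn (fun s C => s 0 (rp p ν F C)) ?_ ?_ (Finset.finite_toSet T)
  · rintro _ ⟨d, -, rfl⟩
    rw [Finset.mem_coe, Fintype.mem_piFinset]
    intro C
    have hle : slope p ν (d.Φ 0) (rp p ν F C) ≤ n := by
      refine (slope_le _ _).trans (le_of_eq ?_)
      rw [hn]
      exact card_place _ _
    by_cases hC : C = c₀
    · rw [if_pos hC, Finset.mem_Icc]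
      refine ⟨?_, hle⟩
      rw [hC]
      have h1 : F.j ∈ d.Φ 0 := ((quad_iff _ _).1 d.quad).2.1.2.1
      change 1 ≤ slope p ν (d.Φ 0) (rp p ν F c₀)
      rw [rp_j]
      exact slope_pos h1
    · rw [if_neg hC, Finset.mem_Icc]
      exact ⟨Nat.zero_le _, hle⟩
  · rintro _ ⟨d, -, rfl⟩ _ ⟨d', -, rfl⟩ hdd
    refine slopes_det p ν fun φ => ?_
    have h1 : slope p ν (d.Φ 0) (rp p ν F (Quotient.mk (ps p ν F.L) φ)) =
        slope p ν (d'.Φ 0) (rp p ν F (Quotient.mk (ps p ν F.L) φ)) :=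
      congrFun hdd (Quotient.mk (ps p ν F.L) φ)
    have h2 : SamePlace p ν (rp p ν F (Quotient.mk (ps p ν F.L) φ)) φ ∨
        SamePlace p ν (rp p ν F (Quotient.mk (ps p ν F.L) φ)) (ComplexEmbedding.conjugate φ) :=
      Quotient.exact (rp_spec p ν F (Quotient.mk (ps p ν F.L) φ))
    rcases h2 with h2 | h2
    · rw [← slope_place h2, ← slope_place h2, h1]
    · have h3 := slope_conj (p := p) (ν := ν) (d.quad.type 0) φ
      have h4 := slope_conj (p := p) (ν := ν) (d'.quad.type 0) φ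
      rw [← slope_place h2] at h3 h4
      omega

end

end Pool.Agent.N830.FT
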