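import Mathlib
import Pool.Agent.N830.FT.C

/-!
# Quadruples of half systems
-/

set_option linter.unusedSectionVars false

namespace Pool.Agent.N830.FT

open NumberField Module Pool.Agent.W495.TA Pool.Agent.R937.TZ Pool.Agent.N830.HC
  Pool.Agent.H204R3.CM Pool.Agent.W547.KB Pool.Agent.W547.LD Pool.Agent.W417.TA

open Pool.Agent.N830.HC.K (mem_of_inter)

noncomputable section

variable {p : ℕ} [Fact p.Prime] {ν : PadicAlgCl p ≃+* ℂ} {Ω : Type} [Field Ω] [CharZero Ω]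
  {B : CMPair} {F : Frame B} {𝒜 : TSys p ν Ω}

/-- The translate of a set. -/
def shift (σ : F.L ≃ₐ[ℚ] F.L) (S : Set (F.L ≃ₐ[ℚ] F.L)) : Set (F.L ≃ₐ[ℚ] F.L) := {τ | τ * σ ∈ S}

theorem shift_half (σ : F.L ≃ₐ[ℚ] F.L) {S : Set (F.L ≃ₐ[ℚ] F.L)} (h : IsHalf S) :
    IsHalf (shift σ S) := by
  intro τ
  change τ * σ ∈ S ↔ ¬ (cc F.L * τ * σ ∈ S)
  rw [mul_assoc]
  exact h (τ * σ)

theorem typeOf_compl (S : Set (F.L ≃ₐ[ℚ] F.L)) : (typeOf F.j S)ᶜ = typeOf F.j Sᶜ := by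
  ext φ
  obtain ⟨σ, rfl⟩ := comp_surjective F.j φ
  change ¬ (F.j.comp (σ : F.L →+* F.L) ∈ typeOf F.j S) ↔ F.j.comp (σ : F.L →+* F.L) ∈ typeOf F.j Sᶜ
  rw [mem_typeOf, mem_typeOf]
  exact Iff.rfl

theorem unshift (σ : F.L ≃ₐ[ℚ] F.L) (S : Set (F.L ≃ₐ[ℚ] F.L)) :
    {σ' | F.j.comp ((σ' * σ⁻¹ : F.L ≃ₐ[ℚ] F.L) : F.L →+* F.L) ∈ typeOf F.j (shift σ S)} = S := by
  ext σ'
  rw [Set.mem_ofPred_eq, mem_typeOf]
  change σ' * σ⁻¹ * σ ∈ S ↔ _
  rw [inv_mul_cancel_right]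

theorem tf_typeOf (σ : F.L ≃ₐ[ℚ] F.L) (S : Set (F.L ≃ₐ[ℚ] F.L)) (x : F.L ≃ₐ[ℚ] F.L) :
    tf p ν F.j {τ | F.j.comp (τ : F.L →+* F.L) ∈ typeOf F.j (shift σ S)} x =
      tf p ν F.j S (x * σ) := by
  have h1 : {τ : F.L ≃ₐ[ℚ] F.L | F.j.comp (τ : F.L →+* F.L) ∈ typeOf F.j (shift σ S)} =
      {τ | τ * σ ∈ S} := by
    ext τ
    rw [Set.mem_ofPred_eq, mem_typeOf]
    exact Iff.rfl
  rw [h1]
  exact tf_tr F.j S σ x

/-- Slopes of translates. -/
theorem slope_shift (σ : F.L ≃ₐ[ℚ] F.L) {S T : Set (F.L ≃ₐ[ℚ] F.L)}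
    (h : slope p ν (typeOf F.j (shift σ S)) = slope p ν (typeOf F.j (shift σ T))ᶜ) :
    tf p ν F.j S = -tf p ν F.j T := by
  rw [typeOf_compl] at h
  have h1 := tf_of_slope (p := p) (ν := ν) F.j h
  have h2 : typeOf F.j (shift σ T)ᶜ = typeOf F.j (shift σ Tᶜ) := rfl
  rw [h2] at h1
  rw [← tf_compl]
  funext x
  have h3 := congrFun h1 (x * σ⁻¹)
  rw [tf_typeOf, tf_typeOf, inv_mul_cancel_right] at h3
  exact h3

variable (φ : B.E →+* F.L) (y : Fin 4 → Set (F.L ≃ₐ[ℚ] F.L)) (hy : ∀ k, IsHalf (y k))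
  (h3 : y 3 = kap B F.j φ) (σ : F.L ≃ₐ[ℚ] F.L) (h01 : y 0 ∩ y 1 = {σ})
  (h23 : y 2 ∩ y 3 = {cc F.L * σ})

theorem typeOf_single (σ' τ : F.L ≃ₐ[ℚ] F.L) {S T : Set (F.L ≃ₐ[ℚ] F.L)}
    (h : S ∩ T = {τ * σ'}) : typeOf F.j (shift σ' S) ∩ typeOf F.j (shift σ' T) =
      {F.j.comp (τ : F.L →+* F.L)} := by
  rw [typeOf_inter]
  have h1 : shift σ' S ∩ shift σ' T = {τ} := by
    ext ρ
    have h4 : ρ * σ' ∈ S ∩ T ↔ ρ * σ' = τ * σ' := by
      rw [h, Set.mem_singleton_iff]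
    rw [Set.mem_singleton_iff]
    exact Iff.trans Iff.rfl (h4.trans (mul_left_inj σ'))
  rw [h1]
  unfold typeOf
  rw [Set.image_singleton]

theorem shift_kap : shift σ (kap B F.j φ) = kap B F.j (σ • φ) := rfl

/-- The datum of a quadruple. -/
theorem exists_datum (hφ : σ • φ = F.ι) (hy : ∀ k, IsHalf (y k)) (h3 : y 3 = kap B F.j φ) (h01 : y 0 ∩ y 1 = {σ})
    (h23 : y 2 ∩ y 3 = {cc F.L * σ}) (hm : F.j' ∈ typeOf F.j (shift σ (y 0)))
    (e0 : tf p ν F.j (y 0) ≠ -tf p ν F.j (y 2)) (e1 : tf p ν F.j (y 1) ≠ -tf p ν F.j (y 2)) :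
    ∃ d : F.Datum, Essential p ν d ∧ ∀ k, types d k = typeOf F.j (shift σ (y k)) := by
  have g0 : slope p ν (typeOf F.j (shift σ (y 0))) ≠ slope p ν (typeOf F.j (shift σ (y 2)))ᶜ :=
    fun h => e0 (slope_shift σ h)
  have g1 : slope p ν (typeOf F.j (shift σ (y 1))) ≠ slope p ν (typeOf F.j (shift σ (y 2)))ᶜ :=
    fun h => e1 (slope_shift σ h)
  have j1 : F.j.comp ((1 : F.L ≃ₐ[ℚ] F.L) : F.L →+* F.L) = F.j := RingHom.ext fun x => rfl
  have k3 : typeOf F.j (shift σ (y 3)) = {φ' | φ'.comp F.ι ∈ B.Φ} := by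
    rw [h3, shift_kap, hφ, typeOf_kap]
  refine ⟨⟨fun i => typeOf F.j (shift σ (y i.castSucc)),
    ⟨fun i => isCMType_typeOf F.j (shift_half σ (hy _)), ?_, ?_, hm, ?_, ?_⟩⟩, ⟨g0, g1⟩, ?_⟩
  · change typeOf F.j (shift σ (y 0)) ∩ typeOf F.j (shift σ (y 1)) = _
    rw [typeOf_single σ 1 (by rw [one_mul]; exact h01), j1]
  · change typeOf F.j (shift σ (y 2)) ∩ _ = _
    rw [← k3, typeOf_single σ (cc F.L) h23]
    have h4 := comp_cc F.j (1 : F.L ≃ₐ[ℚ] F.L)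
    rw [mul_one, j1] at h4
    rw [h4]
  · intro h4
    exact g0 (congrArg (slope p ν) h4)
  · intro h4
    exact g1 (congrArg (slope p ν) h4)
  · intro k
    fin_cases k
    · rfl
    · rfl
    · rfl
    · exact k3.symm

theorem qt_dat (hφ : σ • φ = F.ι) (hF : InT F 𝒜) (jO : F.L →+* Ω) (hy : ∀ k, IsHalf (y k))
    (h3 : y 3 = kap B F.j φ) (h01 : y 0 ∩ y 1 = {σ}) (h23 : y 2 ∩ y 3 = {cc F.L * σ})
    (hm : F.j' ∈ typeOf F.j (shift σ (y 0)))
    (e0 : tf p ν F.j (y 0) ≠ -tf p ν F.j (y 2)) (e1 : tf p ν F.j (y 1) ≠ -tf p ν F.j (y 2)) :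
    QT 𝒜 F.j jO (Fin 4) fun k => tf p ν F.j (y k) := by
  obtain ⟨d, hd, ht⟩ := exists_datum φ y σ hφ hy h3 h01 h23 hm e0 e1
  have h1 := @qt_of_in p _ ν Ω _ _ B F 𝒜 hF d hd jO σ⁻¹
  have h2 : (fun k => tf p ν F.j {σ' | F.j.comp ((σ' * σ⁻¹ : F.L ≃ₐ[ℚ] F.L) : F.L →+* F.L) ∈
      types d k}) = fun k => tf p ν F.j (y k) := by
    funext k
    rw [ht k, unshift]
  rw [h2] at h1
  exact @h1

theorem bal_quad (hy : ∀ k, IsHalf (y k)) (h01 : y 0 ∩ y 1 = {σ})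
    (h23 : y 2 ∩ y 3 = {cc F.L * σ}) : Balanced y := by
  intro τ
  have h1 := mem_of_inter (hy 0) (hy 1) h01 τ
  have h2 := mem_of_inter (hy 2) (hy 3) h23 τ
  rw [cc_mul_cc_mul] at h2
  have a0 : σ ∈ y 0 := (show σ ∈ y 0 ∩ y 1 by rw [h01]; rfl).1
  have a2 : cc F.L * σ ∈ y 2 := (show cc F.L * σ ∈ y 2 ∩ y 3 by rw [h23]; rfl).1
  have b0 : cc F.L * σ ∉ y 0 := (hy 0 σ).1 a0
  have b2 : σ ∉ y 2 := by
    have h4 := (hy 2 (cc F.L * σ)).1 a2
    rwa [cc_mul_cc_mul] at h4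
  rw [Fin.sum_univ_four]
  by_cases c1 : τ = σ
  · subst c1
    have a1 : τ ∈ y 1 := h1.2 (Or.inl rfl)
    have a3 : τ ∉ y 3 := fun h => by
      rcases h2.1 h with h | ⟨-, h⟩
      · exact cc_mul_ne τ h.symm
      · exact h rfl
    rw [if_pos a0, if_pos a1, if_neg b2, if_neg a3]
    norm_num
  · by_cases c2 : τ = cc F.L * σ
    · subst c2
      have a1 : cc F.L * σ ∉ y 1 := fun h => by
        rcases h1.1 h with h | ⟨-, h⟩
        · exact c1 h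
        · exact h rfl
      have a3 : cc F.L * σ ∈ y 3 := h2.2 (Or.inl rfl)
      rw [if_neg b0, if_neg a1, if_pos a2, if_pos a3]
      norm_num
    · have e1 : τ ∈ y 1 ↔ τ ∉ y 0 := by
        rw [h1]
        exact ⟨fun h => by rcases h with h | h
                           · exact absurd h c1
                           · exact h.1, fun h => Or.inr ⟨h, c2⟩⟩
      have e3 : τ ∈ y 3 ↔ τ ∉ y 2 := by
        rw [h2]
        exact ⟨fun h => by rcases h with h | h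
                           · exact absurd h c2
                           · exact h.1, fun h => Or.inr ⟨h, c1⟩⟩
      by_cases f0 : τ ∈ y 0
      · have f1 : τ ∉ y 1 := fun h => e1.1 h f0
        by_cases f2 : τ ∈ y 2
        · have f3 : τ ∉ y 3 := fun h => e3.1 h f2
          rw [if_pos f0, if_neg f1, if_pos f2, if_neg f3]
          norm_num
        · rw [if_pos f0, if_neg f1, if_neg f2, if_pos (e3.2 f2)]
          norm_num
      · by_cases f2 : τ ∈ y 2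
        · have f3 : τ ∉ y 3 := fun h => e3.1 h f2
          rw [if_neg f0, if_pos (e1.2 f0), if_pos f2, if_neg f3]
          norm_num
        · rw [if_neg f0, if_pos (e1.2 f0), if_neg f2, if_pos (e3.2 f2)]
          norm_num

/-- **Quadruples.** -/
theorem qt_quad (hφ : σ • φ = F.ι) (hF : InT F 𝒜) (jO : F.L →+* Ω) (hy : ∀ k, IsHalf (y k))
    (h3 : y 3 = kap B F.j φ) (h01 : y 0 ∩ y 1 = {σ}) (h23 : y 2 ∩ y 3 = {cc F.L * σ}) :
    QT 𝒜 F.j jO (Fin 4) fun k => tf p ν F.j (y k) := by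
  have hbal := bal_quad y σ hy h01 h23
  have hsum : ∀ x, tf p ν F.j (y 0) x + tf p ν F.j (y 1) x + tf p ν F.j (y 2) x +
      tf p ν F.j (y 3) x = 0 := fun x => by
    have h := tf_balanced (p := p) (ν := ν) F.j hbal x
    rw [Fin.sum_univ_four] at h
    exact h
  rcases Classical.em (tf p ν F.j (y 0) = -tf p ν F.j (y 2)) with e0 | e0
  · have e1 : tf p ν F.j (y 3) = -tf p ν F.j (y 1) := by
      funext x
      have h := hsum x
      rw [e0, Pi.neg_apply] at h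
      rw [Pi.neg_apply]
      linarith
    have e2 : tf p ν F.j (y 2) = -tf p ν F.j (y 0) := by rw [e0, neg_neg]
    refine @pairs4 _ _ (closedS 𝒜 F.j jO) (fun k => tf p ν F.j (y k)) (tf p ν F.j (y 0))
      (tf p ν F.j (y 1)) (Sum.elim ![0, 2] ![1, 3]) (by decide) ?_
    rintro (k | k) <;> fin_cases k
    · rfl
    · exact e2
    · rfl
    · exact e1
  rcases Classical.em (tf p ν F.j (y 1) = -tf p ν F.j (y 2)) with e1 | e1
  · have e3 : tf p ν F.j (y 3) = -tf p ν F.j (y 0) := by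
      funext x
      have h := hsum x
      rw [e1, Pi.neg_apply] at h
      rw [Pi.neg_apply]
      linarith
    have e2 : tf p ν F.j (y 2) = -tf p ν F.j (y 1) := by rw [e1, neg_neg]
    refine @pairs4 _ _ (closedS 𝒜 F.j jO) (fun k => tf p ν F.j (y k)) (tf p ν F.j (y 1))
      (tf p ν F.j (y 0)) (Sum.elim ![1, 2] ![0, 3]) (by decide) ?_
    rintro (k | k) <;> fin_cases k
    · rfl
    · exact e2
    · rfl
    · exact e3
  rcases Classical.em (F.j' ∈ typeOf F.j (shift σ (y 0))) with hm | hm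
  · exact @qt_dat p _ ν Ω _ _ B F 𝒜 φ y σ hφ hF jO hy h3 h01 h23 hm e0 e1
  · obtain ⟨σ', hσ'⟩ := comp_surjective F.j F.j'
    have hσc : σ' ≠ cc F.L := by
      rintro rfl
      apply F.ne
      rw [← hσ']
      have h4 := comp_cc F.j (1 : F.L ≃ₐ[ℚ] F.L)
      rw [mul_one] at h4
      exact h4
    have hm' : F.j' ∈ typeOf F.j (shift σ (y 1)) := by
      rw [← hσ'] at hm ⊢
      have h5 := mem_typeOf F.j (shift σ (y 0)) σ'
      have h6 := mem_typeOf F.j (shift σ (y 1)) σ'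
      have h7 : σ' ∉ shift σ (y 0) := fun h => hm (h5.2 h)
      refine h6.2 ?_
      change σ' * σ ∈ y 1
      refine (mem_of_inter (hy 0) (hy 1) h01 _).2 (Or.inr ⟨h7, fun h => hσc (mul_right_cancel h)⟩)
    have h1 := @qt_dat p _ ν Ω _ _ B F 𝒜 φ ![y 1, y 0, y 2, y 3] σ hφ hF jO (by
      intro k
      fin_cases k
      · exact hy 1
      · exact hy 0
      · exact hy 2
      · exact hy 3) h3 (by
      change y 1 ∩ y 0 = {σ}
      rw [Set.inter_comm]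
      exact h01) h23 hm' e1 e0
    refine @Closed.reindex _ _ (closedS 𝒜 F.j jO) _ _ _ (Equiv.swap (0 : Fin 4) 1) _ _ ?_ @h1
    intro k
    fin_cases k
    · rfl
    · rfl
    · rfl
    · rfl

end

end Pool.Agent.N830.FT
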