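import Mathlib
import Pool.Agent.N830.FT.D

/-!
# Relations between four sign functions
-/

set_option linter.unusedSectionVars false

namespace Pool.Agent.N830.FT

open Pool.Agent.W495.TA (IsSign)
open Pool.Agent.R937.HZ

noncomputable section

variable {G M : Type} [Group G] [Fintype G] [AddCommGroup M] {c : G}

open Classical in
/-- The elementary functions. -/
def ee (c σ : G) : G → ℤ := fun x => if x = σ then 1 else if x = c * σ then -1 else 0

theorem ee_self (σ : G) : ee c σ σ = 1 := if_pos rfl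

theorem ee_zero {σ x : G} (h : x ≠ σ) (h' : x ≠ c * σ) : ee c σ x = 0 := by
  unfold ee
  rw [if_neg h, if_neg h']

theorem ee_c (hne : ∀ x : G, c * x ≠ x) (σ : G) : ee c σ (c * σ) = -1 := by
  unfold ee
  rw [if_neg (hne σ), if_pos rfl]

theorem ee_cmul (hc2 : c * c = 1) (hne : ∀ x : G, c * x ≠ x) (σ x : G) :
    ee c σ (c * x) = -ee c σ x := by
  have e1 : ∀ y : G, c * (c * y) = y := fun y => by rw [← mul_assoc, hc2, one_mul]
  by_cases h : x = σ
  · rw [h, ee_c hne, ee_self]
  · by_cases h' : x = c * σ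
    · rw [h', e1, ee_self, ee_c hne, neg_neg]
    · rw [ee_zero h h', ee_zero (fun h1 => h' (by rw [← h1, e1])) (fun h1 => h (mul_left_cancel h1)),
        neg_zero]

theorem ee_neg (hc2 : c * c = 1) (hne : ∀ x : G, c * x ≠ x) (σ : G) :
    ee c (c * σ) = -ee c σ := by
  have e1 : ∀ y : G, c * (c * y) = y := fun y => by rw [← mul_assoc, hc2, one_mul]
  funext x
  rw [Pi.neg_apply]
  by_cases h : x = σ
  · have h2 := ee_c hne (c * σ)
    rw [e1] at h2
    rw [h, ee_self, h2]
  · by_cases h' : x = c * σ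
    · rw [h', ee_self, ee_c hne, neg_neg]
    · rw [ee_zero h h', ee_zero h' (by rw [e1]; exact h), neg_zero]

theorem sign_sub (hc2 : c * c = 1) (hne : ∀ x : G, c * x ≠ x) {f : G → ℤ} (hf : IsSign c f)
    {σ : G} (h : f σ = 1) : IsSign c fun x => f x - 2 * ee c σ x := by
  have hodd : ∀ x, f (c * x) = -f x := hf.odd
  refine ⟨fun x => ?_, fun x => ?_⟩
  · by_cases h1 : x = σ
    · right
      rw [h1, h, ee_self]
      norm_num
    · by_cases h2 : x = c * σ
      · left
        rw [h2, hodd, h, ee_c hne]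
        norm_num
      · rw [ee_zero h1 h2, mul_zero, sub_zero]
        exact hf.sign x
  · change f (c * x) - 2 * ee c σ (c * x) = -(f x - 2 * ee c σ x)
    rw [hodd, ee_cmul hc2 hne]
    ring

theorem ext_sign (hc2 : c * c = 1) {f f' : G → ℤ} (hf : IsSign c f) (hf' : IsSign c f')
    (h : ∀ σ, ¬ (f σ = 1 ∧ f' σ = -1)) : f = f' := by
  have hodd : ∀ x, f (c * x) = -f x := hf.odd
  have hodd' : ∀ x, f' (c * x) = -f' x := hf'.odd
  funext x
  have h1 := h x
  have h2 := h (c * x)
  rw [hodd, hodd'] at h2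
  rcases hf.sign x with h3 | h3 <;> rcases hf'.sign x with h4 | h4 <;> rw [h3, h4] at h1 h2 ⊢ <;>
    first | rfl | (exfalso; revert h1 h2; norm_num)

variable {D : (G → ℤ) → M} {Δ : G → M}

open Classical in
/-- The value at `f` in terms of the value at `f'`. -/
theorem path (hc2 : c * c = 1) (hne : ∀ x : G, c * x ≠ x)
    (H : ∀ σ f, IsSign c f → f σ = 1 → D f = D (fun x => f x - 2 * ee c σ x) + Δ σ)
    {f' : G → ℤ} (hf' : IsSign c f') : ∀ (n : ℕ) (f : G → ℤ), IsSign c f →
      (Finset.univ.filter fun σ => f σ = 1 ∧ f' σ = -1).card = n →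
      D f = D f' + ∑ σ, if f σ = 1 ∧ f' σ = -1 then Δ σ else 0 := by
  intro n
  induction n with
  | zero =>
    intro f hf hn
    have h1 : ∀ σ, ¬ (f σ = 1 ∧ f' σ = -1) := fun σ hσ => by
      rw [Finset.card_eq_zero] at hn
      have h2 : σ ∈ (Finset.univ.filter fun σ => f σ = 1 ∧ f' σ = -1) := by
        rw [Finset.mem_filter]
        exact ⟨Finset.mem_univ _, hσ⟩
      rw [hn] at h2
      exact absurd h2 (Finset.notMem_empty _)
    rw [Finset.sum_eq_zero fun σ _ => if_neg (h1 σ), add_zero, ext_sign hc2 hf hf' h1]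
  | succ n ih =>
    intro f hf hn
    obtain ⟨a, ha⟩ : ∃ a, a ∈ (Finset.univ.filter fun σ => f σ = 1 ∧ f' σ = -1) := by
      rw [← Finset.Nonempty, ← Finset.card_pos, hn]
      exact Nat.succ_pos n
    have ha' := (Finset.mem_filter.1 ha).2
    have hodd : ∀ x, f (c * x) = -f x := hf.odd
    have hodd' : ∀ x, f' (c * x) = -f' x := hf'.odd
    have hiff : ∀ σ, (f σ - 2 * ee c a σ = 1 ∧ f' σ = -1) ↔ ((f σ = 1 ∧ f' σ = -1) ∧ σ ≠ a) := by
      intro σ
      by_cases h1 : σ = a
      · rw [h1, ee_self, ha'.1]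
        norm_num
      · by_cases h2 : σ = c * a
        · rw [h2, hodd, hodd', ha'.1, ha'.2]
          norm_num
        · rw [ee_zero h1 h2, mul_zero, sub_zero]
          simp [h1]
    have hset : (Finset.univ.filter fun σ => f σ - 2 * ee c a σ = 1 ∧ f' σ = -1) =
        (Finset.univ.filter fun σ => f σ = 1 ∧ f' σ = -1).erase a := by
      ext σ
      rw [Finset.mem_filter, Finset.mem_erase, Finset.mem_filter, hiff]
      tauto
    have h3 := ih (fun x => f x - 2 * ee c a x) (sign_sub hc2 hne hf ha'.1) (by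
      rw [hset, Finset.card_erase_of_mem ha, hn]
      rfl)
    rw [H a f hf ha'.1, h3, add_assoc]
    congr 1
    rw [← Finset.sum_filter, ← Finset.sum_filter, hset,
      ← Finset.sum_erase_add _ _ ha]

/-- **Four sign functions.** -/
theorem four (hc2 : c * c = 1) (hne : ∀ x : G, c * x ≠ x) (hneg : ∀ f, D (-f) = -D f)
    (H : ∀ σ f, IsSign c f → f σ = 1 → D f = D (fun x => f x - 2 * ee c σ x) + Δ σ)
    (f : Fin 4 → G → ℤ) (hf : ∀ k, IsSign c (f k)) (hs : ∀ x, ∑ k, f k x = 0) :
    ∑ k, D (f k) = 0 := by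
  classical
  have h1 : ∀ f', IsSign c f' → D f' = D (f 0) + ∑ σ, if f' σ = 1 ∧ f 0 σ = -1 then Δ σ else 0 :=
    fun f' hf' => path hc2 hne H (hf 0) _ f' hf' rfl
  have h2 := h1 (-f 0) (IsSign.neg' (hf 0))
  have h3 : (∑ σ, if (-f 0) σ = 1 ∧ f 0 σ = -1 then Δ σ else 0) =
      ∑ σ, if f 0 σ = -1 then Δ σ else 0 := by
    refine Finset.sum_congr rfl fun σ _ => ?_
    have h4 : ((-f 0) σ = 1 ∧ f 0 σ = -1) ↔ f 0 σ = -1 := by
      rw [Pi.neg_apply]
      constructor
      · exact fun h => h.2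
      · exact fun h => ⟨by rw [h]; norm_num, h⟩
    simp only [h4]
  rw [h3, hneg] at h2
  have h5 : ∑ k, D (f k) = 4 • D (f 0) + 2 • ∑ σ, if f 0 σ = -1 then Δ σ else 0 := by
    rw [Finset.sum_congr rfl fun k _ => h1 (f k) (hf k), Finset.sum_add_distrib,
      Finset.sum_const, Finset.card_univ, Fintype.card_fin, Finset.sum_comm, Finset.smul_sum]
    congr 1
    refine Finset.sum_congr rfl fun σ _ => ?_
    have h6 := hs σ
    rw [Fin.sum_univ_four] at h6 ⊢
    rcases (hf 0).sign σ with k0 | k0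
    · rw [k0]
      norm_num
    · rcases (hf 1).sign σ with k1 | k1 <;> rcases (hf 2).sign σ with k2 | k2 <;>
        rcases (hf 3).sign σ with k3 | k3 <;> rw [k0, k1, k2, k3] at h6 <;>
        first
        | (exfalso; revert h6; norm_num; done)
        | (simp only [k0, k1, k2, k3]
           norm_num [two_nsmul])
  have h7 : (∑ σ, if f 0 σ = -1 then Δ σ else 0) = -D (f 0) - D (f 0) := by
    rw [h2]
    abel
  rw [h5, h7]
  abel

end

end Pool.Agent.N830.FT
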