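import Mathlib
import Pool.Agent.N830.FT.E

/-!
# Monomials and Tate classes
-/

set_option linter.unusedSectionVars false

namespace Pool.Agent.N830.FT

open NumberField Pool.Agent.H204R3.CM Pool.Agent.W547.KB Pool.Agent.W547.LD Pool.Agent.W495.TA Module
  Pool.Agent.W495.TB Pool.Agent.W495.TC Pool.Agent.TH117.F5 Pool.Agent.TH117.BL
  Pool.Agent.W976.TA Pool.Agent.W417.TA Pool.Agent.R937.BR Pool.Agent.R937.TZ Pool.Agent.N830.HC
open Pool.Agent.R937.CS (av nD nD_pos tf_eq_av)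
open Pool.Agent.R937.HZ (isHalf_of_sign sg_of_sign)
open Pool.Agent.Y137.SF (dl dl_neg dl_zero dcnt_eq_sum sg isSign_sg rst)
open Pool.Agent.Y137.TV (lam)
open scoped TensorProduct

noncomputable section

variable {p : ℕ} [Fact p.Prime] {ν : PadicAlgCl p ≃+* ℂ} {Ω : Type} [Field Ω] [CharZero Ω]
  {B : CMPair} {F : Frame B} {𝒜 : TSys p ν Ω} (jO : F.L →+* Ω)

theorem sg_compl (S : Set (F.L ≃ₐ[ℚ] F.L)) : sg Sᶜ = -sg S := by
  classical
  funext σ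
  rw [Pi.neg_apply]
  unfold sg
  by_cases h : σ ∈ S
  · rw [if_neg (show ¬ σ ∈ Sᶜ from fun h' => h' h), if_pos h]
  · rw [if_pos (show σ ∈ Sᶜ from h), if_neg h, neg_neg]

theorem sg_eq_one {S : Set (F.L ≃ₐ[ℚ] F.L)} : {σ | sg S σ = 1} = S := by
  classical
  ext σ
  change sg S σ = 1 ↔ _
  unfold sg
  by_cases h : σ ∈ S
  · rw [if_pos h]
    exact ⟨fun _ => h, fun _ => rfl⟩
  · rw [if_neg h]
    exact ⟨fun h' => absurd h' (by norm_num), fun h' => absurd h' h⟩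

/-- Quadruples of sign functions. -/
theorem qt_fun (hF : InT F 𝒜) (φ : B.E →+* F.L) (f : Fin 4 → (F.L ≃ₐ[ℚ] F.L) → ℤ)
    (hf : ∀ k, IsSign (cc F.L) (f k)) (h3 : f 3 = sg (kap B F.j φ)) (σ : F.L ≃ₐ[ℚ] F.L)
    (hφ : σ • φ = F.ι) (h01 : ∀ x, f 0 x + f 1 x = 2 * ee (cc F.L) σ x)
    (h23 : ∀ x, f 2 x + f 3 x = -(2 * ee (cc F.L) σ x)) :
    QT 𝒜 F.j jO (Fin 4) fun k => av (Dec p ν F.j) (f k) := by
  have hne : ∀ x : F.L ≃ₐ[ℚ] F.L, cc F.L * x ≠ x := fun x => cc_mul_ne x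
  have h4 := @qt_quad p _ ν Ω _ _ B F 𝒜 φ (fun k => {σ | f k σ = 1}) σ hφ hF jO
    (fun k => isHalf_of_sign (hf k)) (by
      change {σ | f 3 σ = 1} = _
      rw [h3, sg_eq_one]) (by
      ext x
      rw [Set.mem_singleton_iff]
      change (f 0 x = 1 ∧ f 1 x = 1) ↔ _
      have h5 := h01 x
      constructor
      · rintro ⟨h6, h7⟩
        by_contra h8
        by_cases h9 : x = cc F.L * σ
        · rw [h9, ee_c hne] at h5
          rw [h9] at h6 h7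
          omega
        · rw [ee_zero h8 h9] at h5
          omega
      · rintro rfl
        rw [ee_self] at h5
        rcases (hf 0).sign x with h6 | h6 <;> rcases (hf 1).sign x with h7 | h7 <;>
          rw [h6, h7] at h5 ⊢ <;> first | (exfalso; revert h5; norm_num; done) | norm_num) (by
      ext x
      rw [Set.mem_singleton_iff]
      change (f 2 x = 1 ∧ f 3 x = 1) ↔ _
      have h5 := h23 x
      constructor
      · rintro ⟨h6, h7⟩
        by_contra h8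
        by_cases h9 : x = σ
        · rw [h9, ee_self] at h5
          rw [h9] at h6 h7
          omega
        · rw [ee_zero h9 h8] at h5
          omega
      · rintro rfl
        rw [ee_c hne] at h5
        rcases (hf 2).sign (cc F.L * σ) with h6 | h6 <;>
          rcases (hf 3).sign (cc F.L * σ) with h7 | h7 <;>
          rw [h6, h7] at h5 ⊢ <;> first | (exfalso; revert h5; norm_num; done) | norm_num)
  have h5 : (fun k => tf p ν F.j {σ | f k σ = 1}) = fun k => av (Dec p ν F.j) (f k) :=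
    funext fun k => tf_sign F.j (hf k)
  rw [h5] at h4
  exact @h4

/-- The functions of the half systems. -/
def RF (p : ℕ) [Fact p.Prime] (ν : PadicAlgCl p ≃+* ℂ) (F : Frame B) :
    Set ((F.L ≃ₐ[ℚ] F.L) → ℤ) := {t | ∃ f, IsSign (cc F.L) f ∧ t = av (Dec p ν F.j) f}

variable (𝒜) in
/-- The subgroup of the counting functions. -/
def NF : AddSubgroup (((F.L ≃ₐ[ℚ] F.L) → ℤ) → ℤ) where
  carrier := {d | GenD (QT 𝒜 F.j jO) (RF p ν F) d}
  zero_mem' := GenD.zero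
  add_mem' h h' := h.add h'
  neg_mem' h := h.neg

variable (𝒜) in
/-- The class of a function. -/
def Dm (f : (F.L ≃ₐ[ℚ] F.L) → ℤ) :
    (((F.L ≃ₐ[ℚ] F.L) → ℤ) → ℤ) ⧸ (NF 𝒜 jO) :=
  QuotientAddGroup.mk' (NF 𝒜 jO) (dl (av (Dec p ν F.j) f))

theorem Dm_neg (f : (F.L ≃ₐ[ℚ] F.L) → ℤ) : Dm 𝒜 jO (-f) = -Dm 𝒜 jO f := by
  unfold Dm
  rw [av_neg', dl_neg, map_neg]

theorem smul_cc (σ : F.L ≃ₐ[ℚ] F.L) (φ : B.E →+* F.L) :
    (cc F.L * σ) • ((cc F.L : F.L →+* F.L).comp φ) = σ • φ := by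
  refine RingHom.ext fun x => ?_
  change (cc F.L * σ) (cc F.L (φ x)) = σ (φ x)
  have h1 : (cc F.L * σ) * cc F.L = σ := by
    rw [cc_comm F.j σ, mul_assoc, cc_cc, mul_one]
  exact congrArg (fun τ : F.L ≃ₐ[ℚ] F.L => τ (φ x)) h1

theorem Dm_quad (hF : InT F 𝒜) (φ : B.E →+* F.L) (f : Fin 4 → (F.L ≃ₐ[ℚ] F.L) → ℤ)
    (hf : ∀ k, IsSign (cc F.L) (f k)) (h3 : f 3 = sg (kap B F.j φ)) (σ : F.L ≃ₐ[ℚ] F.L)
    (hφ : σ • φ = F.ι) (h01 : ∀ x, f 0 x + f 1 x = 2 * ee (cc F.L) σ x)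
    (h23 : ∀ x, f 2 x + f 3 x = -(2 * ee (cc F.L) σ x)) :
    ∑ k, Dm 𝒜 jO (f k) = 0 := by
  unfold Dm
  rw [← map_sum, ← dcnt_eq_sum]
  refine (QuotientAddGroup.eq_zero_iff _).2 ?_
  refine GenD.of_good ⟨inferInstance, by simp [Nat.even_iff], fun k => ⟨f k, hf k, rfl⟩, ?_, ?_⟩
  · have h1 := @qt_fun p _ ν Ω _ _ B F 𝒜 jO hF φ f hf h3 σ hφ h01 h23
    exact @h1
  · have hcc : cc F.L * cc F.L = 1 := cc_cc
    have hne : ∀ x : F.L ≃ₐ[ℚ] F.L, cc F.L * x ≠ x := fun x => cc_mul_ne x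
    have h1 := @qt_fun p _ ν Ω _ _ B F 𝒜 jO hF ((cc F.L : F.L →+* F.L).comp φ) (fun k => -f k)
      (fun k => Pool.Agent.R937.HZ.IsSign.neg' (hf k)) (by
        rw [kap_cc, sg_compl, h3]) (cc F.L * σ) (by
        rw [← hφ]
        exact smul_cc σ φ) (fun x => by
        rw [ee_neg hcc hne, Pi.neg_apply, Pi.neg_apply, Pi.neg_apply]
        have := h01 x
        linarith) (fun x => by
        rw [ee_neg hcc hne, Pi.neg_apply, Pi.neg_apply, Pi.neg_apply]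
        have := h23 x
        linarith)
    have h2 : (fun k => av (Dec p ν F.j) (-f k)) = fun k => -av (Dec p ν F.j) (f k) :=
      funext fun k => av_neg' F.j (f k)
    rw [h2] at h1
    exact @h1

theorem exists_b (σ : F.L ≃ₐ[ℚ] F.L) : ∃ φ : B.E →+* F.L, σ • φ = F.ι ∧
    sg (kap B F.j φ) σ = -1 := by
  classical
  have h1 : σ • σ⁻¹ • F.ι = F.ι := smul_inv_smul σ F.ι
  refine ⟨σ⁻¹ • F.ι, h1, if_neg fun h => ?_⟩
  have h2 : F.j.comp (σ • σ⁻¹ • F.ι) ∈ B.Φ := h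
  rw [h1] at h2
  exact (B.isCMType _).1 h2 F.mem

/-- **Four sign functions.** -/
theorem Dm_four (hF : InT F 𝒜) (f : Fin 4 → (F.L ≃ₐ[ℚ] F.L) → ℤ)
    (hf : ∀ k, IsSign (cc F.L) (f k)) (hs : ∀ x, ∑ k, f k x = 0) : ∑ k, Dm 𝒜 jO (f k) = 0 := by
  have hcc : cc F.L * cc F.L = 1 := cc_cc
  have hne : ∀ x : F.L ≃ₐ[ℚ] F.L, cc F.L * x ≠ x := fun x => cc_mul_ne x
  choose φ hφ using fun σ : F.L ≃ₐ[ℚ] F.L => exists_b (B := B) (F := F) σ
  have hφ1 := fun σ => (hφ σ).1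
  have hφ2 := fun σ => (hφ σ).2
  refine four (Δ := fun σ => Dm 𝒜 jO (fun x => sg (kap B F.j (φ σ)) x + 2 * ee (cc F.L) σ x) -
    Dm 𝒜 jO (sg (kap B F.j (φ σ)))) hcc hne (Dm_neg jO) (fun σ f hf h => ?_) f hf hs
  have hb : IsSign (cc F.L) (sg (kap B F.j (φ σ))) := isSign_sg (isHalf_kap _ _)
  have h1 := sign_sub hcc hne hf h
  have h2 : IsSign (cc F.L) fun x => (-sg (kap B F.j (φ σ))) x - 2 * ee (cc F.L) σ x :=
    sign_sub hcc hne (Pool.Agent.R937.HZ.IsSign.neg' hb) (by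
      rw [Pi.neg_apply, hφ2, neg_neg])
  have h3 := Dm_quad jO hF (φ σ) ![f, -(fun x => f x - 2 * ee (cc F.L) σ x),
    fun x => (-sg (kap B F.j (φ σ))) x - 2 * ee (cc F.L) σ x, sg (kap B F.j (φ σ))] (fun k => by
      fin_cases k
      · exact hf
      · exact Pool.Agent.R937.HZ.IsSign.neg' h1
      · exact h2
      · exact hb) rfl σ (hφ1 σ) (fun x => by
      change f x + -(f x - 2 * ee (cc F.L) σ x) = _
      ring) (fun x => by
      change -(sg (kap B F.j (φ σ)) x) - 2 * ee (cc F.L) σ x + sg (kap B F.j (φ σ)) x = _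
      ring)
  rw [Fin.sum_univ_four] at h3
  change Dm 𝒜 jO f + Dm 𝒜 jO (-(fun x => f x - 2 * ee (cc F.L) σ x)) +
    Dm 𝒜 jO (fun x => (-sg (kap B F.j (φ σ))) x - 2 * ee (cc F.L) σ x) +
    Dm 𝒜 jO (sg (kap B F.j (φ σ))) = 0 at h3
  have h4 : (fun x => (-sg (kap B F.j (φ σ))) x - 2 * ee (cc F.L) σ x) =
      -(fun x => sg (kap B F.j (φ σ)) x + 2 * ee (cc F.L) σ x) := by
    funext x
    rw [Pi.neg_apply, Pi.neg_apply]
    ring
  rw [h4, Dm_neg, Dm_neg] at h3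
  have h5 : Dm 𝒜 jO f = Dm 𝒜 jO (fun x => f x - 2 * ee (cc F.L) σ x) +
      (Dm 𝒜 jO (fun x => sg (kap B F.j (φ σ)) x + 2 * ee (cc F.L) σ x) -
        Dm 𝒜 jO (sg (kap B F.j (φ σ)))) := by
    rw [← sub_eq_zero, ← h3]
    abel
  exact h5

theorem hypF (hF : InT F 𝒜) : Hyp (cc F.L) (Dec p ν F.j) (Dm 𝒜 jO)
    (fun f => IsSign (cc F.L) f ∧ (⊥ : Subgroup (F.L ≃ₐ[ℚ] F.L)) ≤ rst f) := by
  refine ⟨fun f hf => Dm_neg jO f, fun f hf hs => Dm_four jO hF f (fun k => (hf k).1) hs,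
    fun f f' _ _ hff => ?_, fun f hf h0 => ?_⟩
  · have h1 : av (Dec p ν F.j) f = av (Dec p ν F.j) f' := funext hff
    unfold Dm
    rw [h1]
  · have h1 : av (Dec p ν F.j) f = 0 := funext h0
    unfold Dm
    rw [h1, dl_zero, map_zero]

theorem genD_F (hF : InT F 𝒜) {κ : Type} [Fintype κ] (f : κ → (F.L ≃ₐ[ℚ] F.L) → ℤ)
    (hf : ∀ k, IsSign (cc F.L) (f k)) (hsum : ∀ σ, ∑ k, av (Dec p ν F.j) (f k) σ = 0) :
    GenD (QT 𝒜 F.j jO) (RF p ν F) (dcnt fun k => av (Dec p ν F.j) (f k)) := by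
  classical
  have h1 := rlA_inv (fun g => cc_comm F.j g) cc_cc ⊥ (fun h => cc_ne (Subgroup.mem_bot.1 h))
    (hypF jO hF) κ (fun _ => 1) f (fun k => ⟨hf k, bot_le⟩) (fun σ => by
    rw [← hsum σ]
    exact Finset.sum_congr rfl fun k _ => one_mul _)
  have h3 : ∑ k, (1 : ℤ) • Dm 𝒜 jO (f k) =
      QuotientAddGroup.mk' (NF 𝒜 jO) (dcnt fun k => av (Dec p ν F.j) (f k)) := by
    rw [dcnt_eq_sum, map_sum]
    exact Finset.sum_congr rfl fun k _ => one_smul _ _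
  rw [h3] at h1
  exact (QuotientAddGroup.eq_zero_iff _).1 h1

/-- **Monomials.** -/
theorem mono_memF (hF : InT F 𝒜) {Y : RedAV p ν} {κ : Type} [Fintype κ]
    [DecidableEq κ] (hY : Big Y.X F.j) (I : κ → Wt Y.X F.L) (heven : Even (Fintype.card κ))
    (hrel : ∀ σ, ∑ k, tf p ν F.j (St F.j (I k)) σ = 0) : 𝒜.A Y κ (monoO jO I) := by
  classical
  have hhalf : ∀ w : Wt Y.X F.L, IsHalf (St F.j w) := fun w => isHalf_St (X := Y.X) F.j w
  have hf : ∀ k, IsSign (cc F.L) (sg (St F.j (I k))) := fun k => isSign_sg (hhalf (I k))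
  have hgen := genD_F jO hF (fun k => sg (St F.j (I k))) hf fun σ => by
    rw [← hrel σ]
    exact Finset.sum_congr rfl fun k _ => by rw [tf_eq_av]
  have hcan : ∀ g ∈ RF p ν F, PairCancel (F.L ≃ₐ[ℚ] F.L) (QT 𝒜 F.j jO) g := by
    rintro g ⟨f, hf, rfl⟩
    rw [← tf_sign F.j hf]
    exact cancelS 𝒜 F.j jO _ (isHalf_of_sign hf)
  have hSm : QT 𝒜 F.j jO κ (fun k => av (Dec p ν F.j) (sg (St F.j (I k)))) :=
    @of_genD _ _ (RF p ν F) (closedS 𝒜 F.j jO) hcan κ _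
      (fun k => av (Dec p ν F.j) (sg (St F.j (I k)))) (fun k => ⟨_, hf k, rfl⟩)
      (by rw [Nat.card_eq_fintype_card]; exact heven) hgen
  exact @hSm _ _ Y hY I fun k => tf_eq_av ..

/-- **Tate classes.** -/
theorem main_big [IsAlgClosed Ω] (hF : InT F 𝒜) (Y : RedAV p ν) (hYj : Big Y.X F.j) :
    AllTate 𝒜 Y := by
  classical
  intro s m hs f hf
  let jO : F.L →+* Ω := ((IsAlgClosed.lift : F.L →ₐ[ℚ] Ω) : F.L →+* Ω)
  obtain ⟨e, h1, h0⟩ := Pool.Agent.W67.TA.basis p ν Ω F.L F.j jO Y hYj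
  have : Module.Finite ℚ Y.X.H1 := Module.Finite.pi
  have : Finite (Wt Y.X F.L) := Module.Finite.finite_basis e
  refine expandS jO Y e h1 h0 (Fin (2 * m)) f fun I hI => ?_
  have hrel : (∏ k, lam jO (I k)) ^ s * ∏ i ∈ (∅ : Finset Empty), jO ((fun q : Empty => q.elim) i) ^ s =
      (p : Ω) ^ (Y.a * s * m) := by
    rw [Finset.prod_empty, mul_one]
    have h2 := hf fun k => e (I k)
    have h3 : (fun k => (Pool.Agent.W495.TA.F Ω Y ^ s) (e (I k))) =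
        fun k => (lam jO (I k)) ^ s • e (I k) :=
      funext fun k => F_pow_e jO e h1 h0 (I k) s
    rw [h3, AlternatingMap.map_smul_univ, smul_eq_mul, Finset.prod_pow] at h2
    have h4 := mul_right_cancel₀ hI h2
    rw [h4, ← pow_mul]
    congr 1
    ring
  obtain ⟨hcard, hsum⟩ := rel_of_tate (K := Empty) F.j jO hYj I (T := ∅) Y.pos hs rfl
    (b := fun _ => 0) (f := fun _ _ => 0) (y := fun q : Empty => q.elim) (fun i => i.elim) hrel
  refine mono_memF jO hF hYj I ⟨m, ?_⟩ fun σ => ?_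
  · rw [Fintype.card_fin]
    ring
  · have h2 := hsum σ
    rw [Finset.sum_empty, mul_zero, add_zero] at h2
    exact_mod_cast h2

/-- **Abelian varieties with complex multiplication by subfields of `L`.** -/
theorem main_F [IsAlgClosed Ω] (hF : InT F 𝒜) (Y : RedAV p ν)
    (hY : ∀ i, Nonempty ((Y.X.factor i).E →+* F.L)) : AllTate 𝒜 Y :=
  main_big hF Y fun i => bigA_of F.j (hY i).some

end

end Pool.Agent.N830.FT
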