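import Mathlib
import Pool.Agent.N830.FT.G

/-!
# The classes are Tate classes, and the equivalence
-/

set_option linter.unusedSectionVars false

namespace Pool.Agent.N830.FT

open NumberField Pool.Agent.H204R3.CM Pool.Agent.W547.KB Pool.Agent.W495.TA Module
  Pool.Agent.W417.TA Pool.Agent.R937.TZ Pool.Agent.N830.HC
open scoped TensorProduct

noncomputable section

variable {p : ℕ} [Fact p.Prime] {ν : PadicAlgCl p ≃+* ℂ} {Ω : Type} [Field Ω] [CharZero Ω]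
  {B : CMPair} {F : Frame B} {𝒜 : TSys p ν Ω}

theorem factor_emb (d : F.Datum) (i : d.X.I) : Nonempty ((d.X.factor i).E →+* F.L) := by
  rcases i with i | i
  · exact ⟨RingHom.id F.L⟩
  · exact ⟨F.ι⟩

/-- Reductions exist. -/
theorem exists_Red (p : ℕ) [Fact p.Prime] (ν : PadicAlgCl p ≃+* ℂ) (d : F.Datum) :
    Nonempty (Red p ν d) := by
  obtain ⟨a, π, ha, hπ⟩ := exists_red (p := p) (ν := ν) F.j d.X (factor_emb d)
  exact ⟨⟨a, ha, π, hπ⟩⟩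

/-- The class exists. -/
theorem exists_class [IsAlgClosed Ω] {d : F.Datum} (r : Red p ν d) :
    ∃ g : CF Ω r.Y (Fin 4), (∀ g', r.IsClass g' ↔ g' = g) ∧
      ∃ s, 0 < s ∧ IsTateClass Ω r.Y s 2 g := by
  let jO : F.L →+* Ω := ((IsAlgClosed.lift : F.L →ₐ[ℚ] Ω) : F.L →+* Ω)
  obtain ⟨f, hf, hodge⟩ := exists_form B F.ι d.Φ d.quad
  have hg : ∀ v : Fin 4 → d.X.H1, trO jO 1 (Y := r.Y) (Jw d) (fun k => (1 : Ω) ⊗ₜ[ℚ] v k) =
      ((f v : ℚ) : Ω) := by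
    intro v
    have h1 := trO_tmul (Y := r.Y) jO 1 (Jw d) v
    rw [h1, ← (hf _).1 (trForm_isClass d)]
    rfl
  refine ⟨trO jO 1 (Y := r.Y) (Jw d), fun g' => ⟨fun h => ?_, fun h => ?_⟩, ?_⟩
  · obtain ⟨f', hf', hg'⟩ := h
    refine ext_tmul fun v => ?_
    refine (hg' v).trans ?_
    rw [(hf f').1 hf']
    exact (hg v).symm
  · rw [h]
    exact ⟨f, (hf f).2 rfl, hg⟩
  · exact tate_of_hodge (Y := r.Y) (κ := Fin 4) 2 (by norm_num) (by simp) f hodge _ hg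

/-- The classes of degree four are Tate classes. -/
theorem in_of_all [IsAlgClosed Ω]
    (h : ∀ Y : RedAV p ν, (∀ i, Nonempty ((Y.X.factor i).E →+* F.L)) → AllTate 𝒜 Y) :
    InT F 𝒜 := by
  rintro _ ⟨d, -, rfl⟩
  obtain ⟨r⟩ := exists_Red p ν d
  obtain ⟨g, hg, s, hs, ht⟩ := exists_class (Ω := Ω) r
  exact ⟨d, rfl, r, g, (hg g).2 rfl, h r.Y (factor_emb d) s 2 hs g ht⟩

/-- **The equivalence.** -/
theorem iff_F [IsAlgClosed Ω] (F : Frame B) (𝒜 : TSys p ν Ω) :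
    (∀ Y : RedAV p ν, (∀ i, Nonempty ((Y.X.factor i).E →+* F.L)) → AllTate 𝒜 Y) ↔ InT F 𝒜 :=
  ⟨in_of_all, fun h Y hY => main_F h Y hY⟩

/-- **All fields.** -/
theorem iff_all [IsAlgClosed Ω] (B : CMPair) (𝒜 : TSys p ν Ω) :
    (∀ Y : RedAV p ν, AllTate 𝒜 Y) ↔
      ∀ F₀ : Frame B, ∃ F : Frame B, Nonempty (F₀.L →+* F.L) ∧ InT F 𝒜 := by
  refine ⟨fun h F => ⟨F, ⟨RingHom.id _⟩, in_of_all fun Y _ => h Y⟩, fun h Y => ?_⟩
  have hne : Nonempty (Y.X.prod (single B)).I := ⟨Sum.inr ()⟩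
  obtain ⟨L₀, _, _, _, _, j₀, hj⟩ := exists_cm (Y.X.prod (single B))
  obtain ⟨ι, -⟩ := hj (Sum.inr ()) (Classical.choice inferInstance)
  have key : ∃ F₀ : Frame B, F₀.L = L₀ ∧ ∀ E : Type, ∀ _ : Field E, Nonempty (E →+* L₀) →
      Nonempty (E →+* F₀.L) := by
    by_cases hB : j₀.comp ι ∈ B.Φ
    · refine ⟨⟨L₀, ι, ComplexEmbedding.conjugate j₀, ComplexEmbedding.conjugate j₀,
        Pool.Agent.N830.HC.conj_ne _, ?_⟩, rfl, fun E _ h => h⟩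
      have h1 : ComplexEmbedding.conjugate (ComplexEmbedding.conjugate j₀) = j₀ := star_star _
      rw [h1]
      exact hB
    · refine ⟨⟨L₀, ι, j₀, j₀, Pool.Agent.N830.HC.conj_ne _, ?_⟩, rfl, fun E _ h => h⟩
      by_contra h1
      exact hB ((B.isCMType (j₀.comp ι)).2 h1)
  obtain ⟨F₀, -, hF₀⟩ := key
  obtain ⟨F, ⟨f⟩, hF⟩ := h F₀
  refine main_F hF Y fun i => ?_
  obtain ⟨φ, -⟩ := hj (Sum.inl i) (Classical.choice inferInstance)
  obtain ⟨φ'⟩ := hF₀ _ _ ⟨φ⟩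
  exact ⟨f.comp φ'⟩

end

end Pool.Agent.N830.FT
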